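import Pool.Agent.LibFT6.Defs

/-!
Row CA (lists only; tools `flat`, `flat_chain`, `flat_nodup`, `mem_flat`, `length_flat`, `flat_append`
of `LibPathRamsey`). `bs` = outside vertices, all joined in colour `k` (the other colour of the path)
to `a` and to `z`, and `c a z = k`. `L` = the alternating list.

`caseA`: the closed path `z :: a :: (flat L0 ++ [b])`: `z - a`, `a - (first of flat L0 or b)` (all firsts
are in `bs`), `flat L0` is a chain, last of `flat L0` (a second component) to `b` by the chain of `L`,
closing edge `b - z`.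
`caseB`: the path `(flat L1 ++ [b]).reverse ++ z :: a :: flat L2`: the head of `flat L1 ++ [b]` is in `bs`,
hence joined to `z`; the head of `flat L2` is in `bs`.
`caseB_link`: the closed path `a :: (flat L1 ++ [b]) ++ w :: (flat L3 ++ [b']).reverse ++ [z]`.
-/

namespace Pool.Agent.LibFT6

open Pool.Agent.LibPathRamsey

variable {V : Type*}

/-- the hypotheses on the alternating list -/
structure AltL (c : V → V → Bool) (k : Bool) (a z : V) (bs R : List V) (L : List (V × V)) :
    Prop where
  perm : (L.map Prod.fst).Perm bs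
  bnd : bs.Nodup
  adj : ∀ q ∈ L, c q.1 q.2 = k
  chain : L.IsChain (fun q q' => c q.2 q'.1 = k)
  nodup : (L.map Prod.snd).Nodup
  mem : ∀ x ∈ L.map Prod.snd, x = a ∨ x ∈ R
  out : ∀ b ∈ bs, b ≠ a ∧ b ≠ z ∧ b ∉ R
  az : a ≠ z
  aR : a ∉ R
  zR : z ∉ R
  ba : ∀ b ∈ bs, c b a = k
  bz : ∀ b ∈ bs, c b z = k
  caz : c a z = k

private theorem CA_flat_nodup {c : V → V → Bool} {k : Bool} {a z : V} {bs R : List V}
    {L : List (V × V)} (hL : AltL c k a z bs R L) : (flat L).Nodup := by
  refine flat_nodup L (hL.perm.nodup_iff.2 hL.bnd) hL.nodup ?_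
  intro x hx hx'
  have h1 := hL.out x (hL.perm.subset hx)
  rcases hL.mem x hx' with h | h
  · exact h1.1 h
  · exact h1.2.2 h

private theorem CA_chain {c : V → V → Bool} {k : Bool} {a z : V} {bs R : List V}
    {L : List (V × V)} (hL : AltL c k a z bs R L) : (flat L).IsChain (fun u v => c u v = k) :=
  flat_chain (Bl := fun u v => c u v = k) L hL.adj hL.chain

private theorem CA_mem {c : V → V → Bool} {k : Bool} {a z : V} {bs R : List V}
    {L : List (V × V)} (hL : AltL c k a z bs R L) {v : V} (hv : v ∈ flat L) :
    v ∈ bs ∨ v = a ∨ v ∈ R := by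
  rw [mem_flat] at hv
  rcases hv with h | h
  · exact Or.inl (hL.perm.subset h)
  · exact Or.inr (hL.mem v h)

private theorem CA_z {c : V → V → Bool} {k : Bool} {a z : V} {bs R : List V}
    {L : List (V × V)} (hL : AltL c k a z bs R L) : z ∉ flat L := by
  intro h
  rcases CA_mem hL h with h1 | h1 | h1
  · exact (hL.out z h1).2.1 rfl
  · exact hL.az h1.symm
  · exact hL.zR h1

private theorem CA_head {bs : List V} {L : List (V × V)} {b : V}
    (hL : ∀ v ∈ L.map Prod.fst, v ∈ bs) (hb : b ∈ bs) :
    ∀ v ∈ (flat L ++ [b]).head?, v ∈ bs := by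
  intro v hv
  cases L with
  | nil =>
    simp only [flat_nil, List.nil_append, List.head?_cons, Option.mem_def,
      Option.some.injEq] at hv
    rw [← hv]
    exact hb
  | cons q L =>
    simp only [flat_cons, List.cons_append, List.head?_cons, Option.mem_def,
      Option.some.injEq] at hv
    rw [← hv]
    exact hL q.1 (by simp)

private theorem CA_cons {c : V → V → Bool} {k : Bool} {a : V} {X : List V}
    (h1 : ∀ v ∈ X.head?, c a v = k) (h2 : X.IsChain (fun u v => c u v = k)) :
    (a :: X).IsChain (fun u v => c u v = k) := by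
  cases X with
  | nil => exact List.IsChain.singleton _
  | cons x X =>
    rw [List.isChain_cons_cons]
    exact ⟨h1 x (by simp), h2⟩

private theorem CA_rev {c : V → V → Bool} (hsymm : ∀ u v, c u v = c v u) {k : Bool} {X : List V}
    (h2 : X.IsChain (fun u v => c u v = k)) : X.reverse.IsChain (fun u v => c u v = k) := by
  rw [List.isChain_reverse]
  exact h2.imp fun u v h => by
    show c v u = k
    rw [hsymm v u]
    exact h

theorem caseA {c : V → V → Bool} (hsymm : ∀ u v, c u v = c v u) {k : Bool} {a z : V}
    {bs R : List V} {L0 : List (V × V)} {b x : V}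
    (hL : AltL c k a z bs R (L0 ++ [(b, x)])) (ha : a ∉ L0.map Prod.snd) :
    IsCyc c k (z :: a :: (flat L0 ++ [b])) ∧
      (z :: a :: (flat L0 ++ [b])).length = 2 * bs.length + 1 := by
  have hfl : flat (L0 ++ [(b, x)]) = (flat L0 ++ [b]) ++ [x] := by
    rw [flat_append, flat_cons, flat_nil]
    simp
  have hnd := CA_flat_nodup hL
  have hch := CA_chain hL
  rw [hfl] at hnd hch
  have hnd1 : (flat L0 ++ [b]).Nodup := (List.nodup_append.1 hnd).1
  have hch1 : (flat L0 ++ [b]).IsChain (fun u v => c u v = k) := (List.isChain_append.1 hch).1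
  have hb : b ∈ bs := hL.perm.subset (by simp)
  have hfst : ∀ v ∈ L0.map Prod.fst, v ∈ bs := fun v hv => hL.perm.subset (by
    rw [List.map_append, List.mem_append]
    exact Or.inl hv)
  have hz : z ∉ flat L0 ++ [b] := by
    intro h
    refine CA_z hL ?_
    rw [hfl]
    exact List.mem_append_left _ h
  have ha' : a ∉ flat L0 ++ [b] := by
    intro h
    rw [List.mem_append, mem_flat] at h
    rcases h with (h | h) | h
    · exact (hL.out a (hfst a h)).1 rfl
    · exact ha h
    · rw [List.mem_singleton] at h
      exact (hL.out b hb).1 h.symm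
  have hlen := hL.perm.length_eq
  rw [List.length_map, List.length_append, List.length_singleton] at hlen
  refine ⟨⟨?_, ?_, ?_⟩, ?_⟩
  · rw [List.nodup_cons, List.nodup_cons]
    refine ⟨?_, ha', hnd1⟩
    rw [List.mem_cons]
    push Not
    exact ⟨hL.az.symm, hz⟩
  · refine CA_cons ?_ (CA_cons ?_ hch1)
    · intro v hv
      simp only [List.head?_cons, Option.mem_def, Option.some.injEq] at hv
      rw [← hv, hsymm]
      exact hL.caz
    · intro v hv
      rw [hsymm]
      exact hL.ba v (CA_head hfst hb v hv)
  · intro u hu v hv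
    have h1 : z :: a :: (flat L0 ++ [b]) = (z :: a :: flat L0) ++ [b] := by simp
    rw [h1, List.getLast?_concat] at hu
    simp only [Option.mem_def, Option.some.injEq, List.head?_cons] at hu hv
    rw [← hu, ← hv]
    exact hL.bz b hb
  · rw [List.length_cons, List.length_cons, List.length_append, length_flat,
      List.length_singleton]
    omega

theorem caseB {c : V → V → Bool} (hsymm : ∀ u v, c u v = c v u) {k : Bool} {a z : V}
    {bs R : List V} {L1 L2 : List (V × V)} {b : V}
    (hL : AltL c k a z bs R (L1 ++ (b, a) :: L2)) (hne : L2 ≠ []) :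
    ((flat L1 ++ [b]).reverse ++ z :: a :: flat L2).Nodup ∧
      ((flat L1 ++ [b]).reverse ++ z :: a :: flat L2).length = 2 * bs.length + 1 ∧
      ((flat L1 ++ [b]).reverse ++ z :: a :: flat L2).IsChain (fun u v => c u v = k) := by
  have hfl : flat (L1 ++ (b, a) :: L2) = (flat L1 ++ [b]) ++ (a :: flat L2) := by
    rw [flat_append, flat_cons]
    simp
  have hnd := CA_flat_nodup hL
  have hch := CA_chain hL
  have hz := CA_z hL
  rw [hfl] at hnd hch hz
  have hch1 := List.isChain_append.1 hch
  have hb : b ∈ bs := hL.perm.subset (by simp)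
  have hfst : ∀ v ∈ L1.map Prod.fst, v ∈ bs := fun v hv => hL.perm.subset (by
    rw [List.map_append, List.mem_append]
    exact Or.inl hv)
  have hperm : ((flat L1 ++ [b]).reverse ++ z :: a :: flat L2).Perm
      (z :: ((flat L1 ++ [b]) ++ (a :: flat L2))) :=
    List.perm_middle.trans (List.Perm.cons z ((List.reverse_perm _).append_right _))
  refine ⟨?_, ?_, ?_⟩
  · rw [hperm.nodup_iff, List.nodup_cons]
    exact ⟨hz, hnd⟩
  · rw [hperm.length_eq, List.length_cons, ← hfl, length_flat]
    have h1 := hL.perm.length_eq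
    rw [List.length_map] at h1
    omega
  · rw [List.isChain_append]
    refine ⟨CA_rev hsymm hch1.1, CA_cons ?_ hch1.2.1, ?_⟩
    · intro v hv
      simp only [List.head?_cons, Option.mem_def, Option.some.injEq] at hv
      rw [← hv, hsymm]
      exact hL.caz
    · intro u hu v hv
      rw [List.getLast?_reverse] at hu
      simp only [List.head?_cons, Option.mem_def, Option.some.injEq] at hv
      rw [← hv]
      exact hL.bz u (CA_head hfst hb u hu)

theorem caseB_link {c : V → V → Bool} (hsymm : ∀ u v, c u v = c v u) {k : Bool} {a z : V}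
    {bs R : List V} {L1 L3 : List (V × V)} {b b' x' w : V}
    (hL : AltL c k a z bs R (L1 ++ (b, a) :: (L3 ++ [(b', x')])))
    (hw : w ∈ R) (hw1 : w ∉ L1.map Prod.snd) (hw3 : w ∉ L3.map Prod.snd)
    (hbw : c b w = k) (hbw' : c b' w = k) :
    IsCyc c k (a :: ((flat L1 ++ [b]) ++ w :: ((flat L3 ++ [b']).reverse ++ [z]))) ∧
      (a :: ((flat L1 ++ [b]) ++ w :: ((flat L3 ++ [b']).reverse ++ [z]))).length =
        2 * bs.length + 1 := by
  have hfl : flat (L1 ++ (b, a) :: (L3 ++ [(b', x')])) =
      ((flat L1 ++ [b]) ++ (a :: (flat L3 ++ [b']))) ++ [x'] := by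
    rw [flat_append, flat_cons, flat_append, flat_cons, flat_nil]
    simp
  have hnd := CA_flat_nodup hL
  have hch := CA_chain hL
  have hz := CA_z hL
  rw [hfl] at hnd hch hz
  have hnd1 := (List.nodup_append.1 hnd).1
  have hch0 := (List.isChain_append.1 hch).1
  have hch1 := List.isChain_append.1 hch0
  have hch2 : (flat L3 ++ [b']).IsChain (fun u v => c u v = k) := by
    have h1 := hch1.2.1
    rw [show a :: (flat L3 ++ [b']) = [a] ++ (flat L3 ++ [b']) from rfl] at h1
    exact (List.isChain_append.1 h1).2.1
  have hb : b ∈ bs := hL.perm.subset (by simp)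
  have hb' : b' ∈ bs := hL.perm.subset (by simp)
  have hfst1 : ∀ v ∈ L1.map Prod.fst, v ∈ bs := fun v hv => hL.perm.subset (by
    rw [List.map_append, List.mem_append]
    exact Or.inl hv)
  have hfst3 : ∀ v ∈ L3.map Prod.fst, v ∈ bs := fun v hv => hL.perm.subset (by
    rw [List.map_append, List.mem_append, List.map_cons, List.map_append, List.mem_cons,
      List.mem_append]
    exact Or.inr (Or.inr (Or.inl hv)))
  have hz1 : z ∉ (flat L1 ++ [b]) ++ (a :: (flat L3 ++ [b'])) := fun h =>
    hz (List.mem_append_left _ h)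
  have hw' : w ∉ (flat L1 ++ [b]) ++ (a :: (flat L3 ++ [b'])) := by
    intro h
    have hwbs : w ∉ bs := fun h => (hL.out w h).2.2 hw
    simp only [List.mem_append, List.mem_cons, mem_flat, List.mem_singleton,
      List.not_mem_nil, or_false] at h
    rcases h with ((h | h) | h) | (h | ((h | h) | h))
    · exact hwbs (hfst1 w h)
    · exact hw1 h
    · exact hwbs (h ▸ hb)
    · exact hL.aR (h ▸ hw)
    · exact hwbs (hfst3 w h)
    · exact hw3 h
    · exact hwbs (h ▸ hb')
  have hwz : w ≠ z := fun h => hL.zR (h ▸ hw)
  have hperm : (a :: ((flat L1 ++ [b]) ++ w :: ((flat L3 ++ [b']).reverse ++ [z]))).Perm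
      (z :: w :: ((flat L1 ++ [b]) ++ (a :: (flat L3 ++ [b'])))) := by
    classical
    rw [List.perm_iff_count]
    intro v
    simp only [List.count_cons, List.count_append, List.count_reverse, List.count_nil]
    omega
  have hlen := hL.perm.length_eq
  rw [List.length_map, List.length_append, List.length_cons, List.length_append,
    List.length_singleton] at hlen
  refine ⟨⟨?_, ?_, ?_⟩, ?_⟩
  · rw [hperm.nodup_iff, List.nodup_cons, List.nodup_cons]
    refine ⟨?_, hw', hnd1⟩
    rw [List.mem_cons]
    push Not
    exact ⟨hwz.symm, hz1⟩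
  · refine CA_cons ?_ ?_
    · intro v hv
      rw [hsymm]
      refine hL.ba v (CA_head hfst1 hb v ?_)
      have hne : flat L1 ++ [b] ≠ [] := by simp
      rwa [List.head?_append_of_ne_nil _ hne] at hv
    · rw [List.isChain_append]
      refine ⟨hch1.1, CA_cons ?_ ?_, ?_⟩
      · intro v hv
        have h1 : (flat L3 ++ [b']).reverse ++ [z] = b' :: ((flat L3).reverse ++ [z]) := by simp
        rw [h1] at hv
        simp only [List.head?_cons, Option.mem_def, Option.some.injEq] at hv
        rw [← hv, hsymm]
        exact hbw'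
      · rw [List.isChain_append]
        refine ⟨CA_rev hsymm hch2, List.IsChain.singleton _, ?_⟩
        intro u hu v hv
        rw [List.getLast?_reverse] at hu
        simp only [List.head?_cons, Option.mem_def, Option.some.injEq] at hv
        rw [← hv]
        exact hL.bz u (CA_head hfst3 hb' u hu)
      · intro u hu v hv
        rw [List.getLast?_concat] at hu
        simp only [List.head?_cons, Option.mem_def, Option.some.injEq] at hu hv
        rw [← hu, ← hv]
        exact hbw
  · intro u hu v hv
    have h1 : a :: ((flat L1 ++ [b]) ++ w :: ((flat L3 ++ [b']).reverse ++ [z])) =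
        (a :: ((flat L1 ++ [b]) ++ w :: (flat L3 ++ [b']).reverse)) ++ [z] := by simp
    rw [h1, List.getLast?_concat] at hu
    simp only [Option.mem_def, Option.some.injEq, List.head?_cons] at hu hv
    rw [← hu, ← hv, hsymm]
    exact hL.caz
  · rw [hperm.length_eq]
    simp only [List.length_cons, List.length_append, length_flat, List.length_nil]
    omega

end Pool.Agent.LibFT6
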