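import Pool.Agent.LibFT6.ST
import Pool.Agent.LibFT6.CA

/-!
Row EE (cites ST, CA, `LibPathRamsey.two_colour`). `n = 3 m - 2`, `m ≥ 2`, no path on `2 m` vertices in
one colour: there is a closed path on `2 m - 1` vertices in one colour.

`two_colour` with `l = 2 m - 1` (relation `c u v = true`) gives a path `p` of colour `k` on `2 m - 1`
vertices; `p = a :: (R ++ [z])`, `R.length = 2 m - 3`; `bs = (univ \ p.toFinset).toList`, length `m - 1`.
If `c z a = k`: closed. Otherwise `c a z = !k`; `st_alt` gives `L`, and `AltL c (!k) a z bs R L` by
`st_first`, `st_last`. `L = L0 ++ [(b', x')]`. If `a ∉ L0.map snd`: `caseA`, length `2 (m-1) + 1`. Otherwise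
`L0 = L1 ++ (b, a) :: L3`, `caseB` with `L2 = L3 ++ [(b', x')]`: path `Q` of colour `!k` on `2 m - 1`
vertices from `b` to `x'` (last of `flat L2`). If `c b x' = !k`: `Q` is closed (`IsCyc c (!k) Q`).
Otherwise `c b x' = k`. `W` = vertices of `p` not on `Q`: `2 m - 1 - m = m - 1` of them (`Q` contains all
`m - 1` vertices of `bs` and `m` vertices of `p`). If some `w` in `W` has `c b w = !k`, `w :: Q` is a path
of colour `!k` on `2 m` vertices: contradiction. Otherwise `D = W ∪ {x'}` has `m` elements, all in `p`
and joined to `b` in colour `k`: `st_few` says `2 m ≤ 2 m - 2`, contradiction.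
-/

namespace Pool.Agent.LibFT6

variable {V : Type*}

open Pool.Agent.LibPathRamsey

private theorem EE_main [Fintype V] [DecidableEq V] (c : V → V → Bool)
    (hsymm : ∀ u v, c u v = c v u) (m : ℕ) (hm : 2 ≤ m) (hV : Fintype.card V = 3 * m - 2)
    (hno : ∀ k : Bool, ¬ Pth c k (2 * m)) (k : Bool) (a z : V) (R : List V)
    (hp : (a :: (R ++ [z])).Nodup) (hlen : (a :: (R ++ [z])).length = 2 * m - 1)
    (hch : (a :: (R ++ [z])).IsChain (fun u v => c u v = k)) :
    ∃ (k : Bool) (p : List V), IsCyc c k p ∧ p.length = 2 * m - 1 := by
  have hmax : ¬ Pth c k ((a :: (R ++ [z])).length + 1) := by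
    rw [hlen, show 2 * m - 1 + 1 = 2 * m by omega]
    exact hno k
  have hRlen : R.length = 2 * m - 3 := by
    simp only [List.length_cons, List.length_append, List.length_nil] at hlen
    omega
  by_cases hza : c z a = k
  · refine ⟨k, a :: (R ++ [z]), ⟨hp, hch, ?_⟩, hlen⟩
    intro z' hz' a' ha'
    rw [← List.cons_append, List.getLast?_append] at hz'
    simp only [List.getLast?_singleton, Option.some_or, Option.mem_some_iff] at hz'
    simp only [List.head?_cons, Option.mem_some_iff] at ha'
    rw [← hz', ← ha']
    exact hza
  · have hcaz : c a z = !k := by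
      rw [hsymm]
      exact Bool.eq_not.2 hza
    obtain ⟨bs, hbsdef⟩ : ∃ bs : List V,
        bs = (Finset.univ \ (a :: (R ++ [z])).toFinset : Finset V).toList := ⟨_, rfl⟩
    have hbsn : bs.Nodup := by
      rw [hbsdef]
      exact Finset.nodup_toList _
    have hbsmem : ∀ b, b ∈ bs ↔ b ∉ a :: (R ++ [z]) := by
      intro b
      rw [hbsdef, Finset.mem_toList, Finset.mem_sdiff, List.mem_toFinset]
      simp
    have hbslen : bs.length = m - 1 := by
      rw [hbsdef, Finset.length_toList, Finset.card_sdiff_of_subset (Finset.subset_univ _),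
        Finset.card_univ, List.toFinset_card_of_nodup hp, hlen, hV]
      omega
    have hout : ∀ b ∈ bs, b ∉ a :: (R ++ [z]) := fun b hb => (hbsmem b).1 hb
    have hne : bs ≠ [] := by
      intro h
      rw [h] at hbslen
      simp only [List.length_nil] at hbslen
      omega
    obtain ⟨L, hLne, hLp, hLa, hLc, hLn, hLm⟩ := st_alt hsymm hp hch hmax bs hbsn hout hne
      (by omega)
    have hnd := List.nodup_cons.1 hp
    have haR : a ∉ R := fun h => hnd.1 (List.mem_append_left _ h)
    have haz : a ≠ z := fun h => hnd.1 (by rw [h]; simp)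
    have hzR : z ∉ R := by
      intro h
      have h2 := List.nodup_append.1 hnd.2
      exact h2.2.2 z h z (List.mem_singleton.2 rfl) rfl
    have hAlt : AltL c (!k) a z bs R L :=
      { perm := hLp
        bnd := hbsn
        adj := hLa
        chain := hLc
        nodup := hLn
        mem := hLm
        out := by
          intro b hb
          have h := hout b hb
          simp only [List.mem_cons, List.mem_append, List.not_mem_nil, or_false, not_or] at h
          exact ⟨h.1, h.2.2, h.2.1⟩
        az := haz
        aR := haR
        zR := hzR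
        ba := fun b hb => st_first rfl hp hch hmax (hout b hb)
        bz := fun b hb => st_last hsymm (R := a :: R) rfl hp hch hmax (hout b hb)
        caz := hcaz }
    obtain ⟨L0, ⟨b', x'⟩, hL0⟩ : ∃ L0 : List (V × V), ∃ q, L = L0 ++ [q] := by
      rcases List.eq_nil_or_concat L with h | ⟨L0, q, h⟩
      · exact absurd h hLne
      · exact ⟨L0, q, by simpa using h⟩
    subst hL0
    by_cases ha : a ∈ L0.map Prod.snd
    · obtain ⟨⟨b, a''⟩, hq, hqa⟩ := List.mem_map.1 ha
      simp only at hqa
      subst hqa
      obtain ⟨L1, L3, hL1⟩ := List.append_of_mem hq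
      subst hL1
      have hAlt' : AltL c (!k) a'' z bs R (L1 ++ (b, a'') :: (L3 ++ [(b', x')])) := by
        simpa using hAlt
      obtain ⟨hQn, hQl, hQc⟩ := caseB hsymm hAlt' (by simp)
      generalize hQ : ((flat L1 ++ [b]).reverse ++ z :: a'' :: flat (L3 ++ [(b', x')])) = Q
        at hQn hQl hQc
      have hQhead : Q = b :: ((flat L1).reverse ++ z :: a'' :: flat (L3 ++ [(b', x')])) := by
        rw [← hQ]
        simp
      have hQlast : Q = (b :: ((flat L1).reverse ++ z :: a'' :: (flat L3 ++ [b']))) ++ [x'] := by
        rw [hQhead, flat_append]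
        simp
      have hQl' : Q.length = 2 * m - 1 := by
        rw [hQl, hbslen]
        omega
      by_cases hbx : c b x' = !k
      · refine ⟨!k, Q, ⟨hQn, hQc, ?_⟩, hQl'⟩
        intro z' hz' a' ha'
        rw [hQlast, List.getLast?_append] at hz'
        simp only [List.getLast?_singleton, Option.some_or, Option.mem_some_iff] at hz'
        rw [hQhead, List.head?_cons, Option.mem_some_iff] at ha'
        rw [← hz', ← ha', hsymm]
        exact hbx
      · exfalso
        have hbx' : c b x' = k := by
          cases k <;> simpa using hbx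
        have hbmem : b ∈ bs := by
          refine hAlt'.perm.mem_iff.1 ?_
          simp
        have hbout := hout b hbmem
        have hxp : x' ∈ a'' :: (R ++ [z]) := by
          have h := hAlt'.mem x' (by simp)
          rcases h with h | h
          · rw [h]
            simp
          · simp [h]
        have hbsQ : ∀ v ∈ bs, v ∈ Q := by
          intro v hv
          have h := hAlt'.perm.mem_iff.2 hv
          rw [← hQ, List.mem_append, List.mem_reverse, List.mem_append, mem_flat, List.mem_cons,
            List.mem_cons,
            List.mem_cons, mem_flat]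
          simp only [List.map_append, List.map_cons, List.mem_append, List.mem_cons] at h ⊢
          tauto
        have hxQ : x' ∈ Q := by
          rw [hQlast]
          simp
        have hW : ∀ w ∈ a'' :: (R ++ [z]), w ∉ Q → c b w = k := by
          intro w hw hwQ
          by_contra hcw
          have hcw' : c w b = !k := by
            rw [hsymm]
            exact Bool.eq_not.2 hcw
          refine hno (!k) ⟨w :: Q, List.nodup_cons.2 ⟨hwQ, hQn⟩, ?_, ?_⟩
          · rw [List.length_cons, hQl']
            omega
          · rw [hQhead] at hQc ⊢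
            exact List.isChain_cons_cons.2 ⟨hcw', hQc⟩
        have hfew := st_few hsymm hp hch hmax hbout
          (insert x' ((a'' :: (R ++ [z])).toFinset \ Q.toFinset)) (by
            intro x hx
            rcases Finset.mem_insert.1 hx with h | h
            · rw [h]
              exact ⟨hxp, hbx'⟩
            · rw [Finset.mem_sdiff, List.mem_toFinset, List.mem_toFinset] at h
              exact ⟨h.1, hW x h.1 h.2⟩)
        rw [Finset.card_insert_of_notMem (by
          rw [Finset.mem_sdiff, List.mem_toFinset, List.mem_toFinset]
          exact fun h => h.2 hxQ), hlen] at hfew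
        have h1 := Finset.card_sdiff_add_card_inter (a'' :: (R ++ [z])).toFinset Q.toFinset
        have h2 := Finset.card_sdiff_add_card_inter Q.toFinset (a'' :: (R ++ [z])).toFinset
        have h3 : bs.toFinset ⊆ Q.toFinset \ (a'' :: (R ++ [z])).toFinset := by
          intro v hv
          rw [List.mem_toFinset] at hv
          rw [Finset.mem_sdiff, List.mem_toFinset, List.mem_toFinset]
          exact ⟨hbsQ v hv, hout v hv⟩
        have h4 := Finset.card_le_card h3
        rw [List.toFinset_card_of_nodup hbsn, hbslen] at h4
        rw [List.toFinset_card_of_nodup hp, hlen] at h1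
        rw [List.toFinset_card_of_nodup hQn, hQl'] at h2
        rw [Finset.inter_comm] at h2
        omega
    · obtain ⟨h1, h2⟩ := caseA hsymm hAlt ha
      refine ⟨!k, _, h1, ?_⟩
      rw [h2, hbslen]
      omega

theorem existsE [Fintype V] [DecidableEq V] (c : V → V → Bool) (hsymm : ∀ u v, c u v = c v u)
    (m : ℕ) (hm : 2 ≤ m) (hV : Fintype.card V = 3 * m - 2)
    (hno : ∀ k : Bool, ¬ Pth c k (2 * m)) :
    ∃ (k : Bool) (p : List V), IsCyc c k p ∧ p.length = 2 * m - 1 := by
  obtain ⟨p, hp, hlen, hch⟩ := two_colour (fun u v => c u v = true)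
    (fun u v h => by rw [hsymm]; exact h) (2 * m - 1) (by omega) (by omega)
  obtain ⟨k, hch'⟩ : ∃ k : Bool, p.IsChain (fun u v => c u v = k) := by
    rcases hch with h | h
    · exact ⟨true, h⟩
    · refine ⟨false, ?_⟩
      simpa using h
  rcases p with _ | ⟨a, p'⟩
  · simp only [List.length_nil] at hlen
    omega
  · rcases List.eq_nil_or_concat p' with h | ⟨R, z, h⟩
    · subst h
      simp only [List.length_cons, List.length_nil] at hlen
      omega
    · have h' : p' = R ++ [z] := by simpa using h
      subst h'
      exact EE_main c hsymm m hm hV hno k a z R hp hlen hch'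

end Pool.Agent.LibFT6
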