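import Pool.Agent.LibFT6.ST

/-!
Row CR (cites ST). `p` is a path in colour `k` which is not extendable, `b ≠ b'` outside `p`.

`cross`: `p = l1 ++ v :: v' :: (l2 ++ x :: x' :: l3)`, `v, x` joined to `b`, `v', x'` joined to `b'` in
colour `k`: the path `l1 ++ v :: b :: x :: (l2.reverse ++ v' :: b' :: x' :: l3)` has two vertices more
than `p`; drop the first vertex (`List.IsChain.tail`): `Pth c k (p.length + 1)`.
`cross_idx`: the same with indices `s + 1 < t`: `p[s], p[t]` joined to `b`, `p[s+1], p[t+1]` to `b'`.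
`three`: a set `X` of vertices; `I` = interior indices. If every vertex of `R` outside `X` is joined in
colour `k` to `b` or to `b'`, and `R.length ≥ 2 * X.card + 4`, contradiction:
the indices `i` with `i + 1 < R.length`, `R[i], R[i+1] ∉ X` are at least `R.length - 1 - 2 X.card ≥ 3` many
(each element of `X` is `R[i]` for at most one `i` and `R[i+1]` for at most one `i`). For such `i`, by
`st_mid` applied to `b` and to `b'`: either (`b ~ R[i]`, `b' ~ R[i+1]`) or (`b' ~ R[i]`, `b ~ R[i+1]`).
Two of the three indices `i < j` have the same type (`Finset.exists_ne_map_eq_of_card_lt_of_maps_to` into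
`Bool`), `j ≠ i + 1` by `st_mid`, and `cross_idx` (with `b, b'` or `b', b`) contradicts `hmax`.
-/

namespace Pool.Agent.LibFT6

variable {V : Type*}

theorem cross {c : V → V → Bool} (hsymm : ∀ u v, c u v = c v u) {k : Bool} {p l1 l2 l3 : List V}
    {v v' x x' : V} (hpe : p = l1 ++ v :: v' :: (l2 ++ x :: x' :: l3)) (hp : p.Nodup)
    (hch : p.IsChain (fun u v => c u v = k)) {b b' : V} (hb : b ∉ p) (hb' : b' ∉ p)
    (hbb : b ≠ b') (h1 : c b v = k) (h2 : c b x = k) (h3 : c b' v' = k) (h4 : c b' x' = k) :
    Pth c k (p.length + 1) := by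
  have hperm : (l1 ++ v :: b :: x :: (l2.reverse ++ v' :: b' :: x' :: l3)).Perm (b :: b' :: p) := by
    classical
    rw [hpe, List.perm_iff_count]
    intro a
    simp only [List.count_append, List.count_cons, List.count_reverse]
    omega
  have hnd : (l1 ++ v :: b :: x :: (l2.reverse ++ v' :: b' :: x' :: l3)).Nodup := by
    rw [hperm.nodup_iff]
    simp only [List.nodup_cons, List.mem_cons, not_or]
    exact ⟨⟨hbb, hb⟩, hb', hp⟩
  have hc : (l1 ++ v :: b :: x :: (l2.reverse ++ v' :: b' :: x' :: l3)).IsChain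
      (fun u v => c u v = k) := by
    rw [hpe] at hch
    rw [List.isChain_split] at hch
    obtain ⟨ha, hr⟩ := hch
    rw [List.isChain_cons_cons] at hr
    obtain ⟨_, hr⟩ := hr
    have hr' : ((v' :: l2) ++ x :: x' :: l3).IsChain (fun u v => c u v = k) := by
      simpa using hr
    rw [List.isChain_split] at hr'
    obtain ⟨hm, ht⟩ := hr'
    rw [List.isChain_cons_cons] at ht
    obtain ⟨_, ht⟩ := ht
    rw [List.isChain_split]
    refine ⟨ha, ?_⟩
    rw [List.isChain_cons_cons, List.isChain_cons_cons]
    refine ⟨by rw [hsymm]; exact h1, h2, ?_⟩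
    have hgoal : ((x :: l2.reverse) ++ v' :: b' :: x' :: l3).IsChain (fun u v => c u v = k) := by
      rw [List.isChain_split]
      refine ⟨?_, ?_⟩
      · have he : (x :: l2.reverse) ++ [v'] = ((v' :: l2) ++ [x]).reverse := by simp
        rw [he, List.isChain_reverse]
        refine hm.imp ?_
        intro u w h
        show c w u = k
        rw [hsymm]
        exact h
      · rw [List.isChain_cons_cons, List.isChain_cons_cons]
        exact ⟨by rw [hsymm]; exact h3, h4, ht⟩
    simpa using hgoal
  refine ⟨(l1 ++ v :: b :: x :: (l2.reverse ++ v' :: b' :: x' :: l3)).tail, ?_, ?_, hc.tail⟩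
  · exact hnd.sublist (List.tail_sublist _)
  · rw [List.length_tail, hperm.length_eq]
    simp

private theorem crSplit (p : List V) (s : ℕ) (hs : s + 1 < p.length) :
    p = p.take s ++ (p[s]'(by omega)) :: (p[s + 1]'hs) :: p.drop (s + 2) := by
  have h1 : p.drop s = (p[s]'(by omega)) :: p.drop (s + 1) := List.drop_eq_getElem_cons (by omega)
  have h2 : p.drop (s + 1) = (p[s + 1]'hs) :: p.drop (s + 2) := List.drop_eq_getElem_cons hs
  rw [← h2, ← h1, List.take_append_drop]

theorem cross_idx {c : V → V → Bool} (hsymm : ∀ u v, c u v = c v u) {k : Bool} {p : List V}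
    (hp : p.Nodup) (hch : p.IsChain (fun u v => c u v = k)) {b b' : V} (hb : b ∉ p)
    (hb' : b' ∉ p) (hbb : b ≠ b') {s t : ℕ} (hst : s + 1 < t) (ht : t + 1 < p.length)
    (h1 : c b (p[s]'(by omega)) = k) (h2 : c b (p[t]'(by omega)) = k)
    (h3 : c b' (p[s + 1]'(by omega)) = k) (h4 : c b' (p[t + 1]'ht) = k) :
    Pth c k (p.length + 1) := by
  have e1 := crSplit p s (by omega)
  have hlen : (p.drop (s + 2)).length = p.length - (s + 2) := List.length_drop
  have hlt : (t - (s + 2)) + 1 < (p.drop (s + 2)).length := by rw [hlen]; omega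
  have e2 := crSplit (p.drop (s + 2)) (t - (s + 2)) hlt
  have g1 : ((p.drop (s + 2))[t - (s + 2)]'(by omega)) = p[t]'(by omega) := by
    rw [List.getElem_drop]
    congr 1
    omega
  have g2 : ((p.drop (s + 2))[t - (s + 2) + 1]'hlt) = p[t + 1]'ht := by
    rw [List.getElem_drop]
    congr 1
    omega
  rw [g1, g2] at e2
  rw [e2] at e1
  exact cross hsymm e1 hp hch hb hb' hbb h1 h2 h3 h4

private theorem crPair {c : V → V → Bool} (hsymm : ∀ u v, c u v = c v u) {k : Bool}
    {a z : V} {R : List V} (hp : (a :: (R ++ [z])).Nodup)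
    (hch : (a :: (R ++ [z])).IsChain (fun u v => c u v = k))
    (hmax : ¬ Pth c k ((a :: (R ++ [z])).length + 1)) {b : V} (hb : b ∉ a :: (R ++ [z]))
    {i : ℕ} (hi : i + 1 < R.length) (h1 : c b (R[i]'(by omega)) = k) :
    c b (R[i + 1]'hi) ≠ k := by
  intro h2
  have e1 := crSplit R i hi
  have e2 : a :: (R ++ [z]) = (a :: R.take i) ++ (R[i]'(by omega)) :: (R[i + 1]'hi) ::
      (R.drop (i + 2) ++ [z]) := by
    have e3 : R ++ [z] = R.take i ++ (R[i]'(by omega)) :: (R[i + 1]'hi) ::
        (R.drop (i + 2) ++ [z]) :=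
      (congrArg (fun L => L ++ [z]) e1).trans (by
        simp only [List.append_assoc, List.cons_append])
    rw [e3, List.cons_append]
  exact st_mid hsymm e2 hp hch hmax hb ⟨h1, h2⟩

private theorem crKey {c : V → V → Bool} (hsymm : ∀ u v, c u v = c v u) {k : Bool}
    {a z : V} {R : List V} (hp : (a :: (R ++ [z])).Nodup)
    (hch : (a :: (R ++ [z])).IsChain (fun u v => c u v = k))
    (hmax : ¬ Pth c k ((a :: (R ++ [z])).length + 1)) {b b' : V} (hb : b ∉ a :: (R ++ [z]))
    (hb' : b' ∉ a :: (R ++ [z])) (hbb : b ≠ b') {i j : ℕ} (hij : i < j)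
    (hj : j + 1 < R.length) (h1 : c b (R[i]'(by omega)) = k) (h2 : c b (R[j]'(by omega)) = k)
    (h3 : c b' (R[i + 1]'(by omega)) = k) (h4 : c b' (R[j + 1]'hj) = k) : False := by
  have hne : j ≠ i + 1 := by
    intro h
    subst h
    exact crPair hsymm hp hch hmax hb (by omega) h1 h2
  have hidx : ∀ n (hn : n < R.length), ((a :: (R ++ [z]))[n + 1]'(by
      simp; omega)) = R[n]'hn := by
    intro n hn
    simp [List.getElem_append_left hn]
  apply hmax
  have hlen : (a :: (R ++ [z])).length = R.length + 2 := by simp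
  refine cross_idx hsymm hp hch hb hb' hbb (s := i + 1) (t := j + 1) (by omega)
    (by rw [hlen]; omega) ?_ ?_ ?_ ?_
  · rw [hidx i (by omega)]; exact h1
  · rw [hidx j (by omega)]; exact h2
  · rw [hidx (i + 1) (by omega)]; exact h3
  · rw [hidx (j + 1) (by omega)]; exact h4

theorem three [DecidableEq V] {c : V → V → Bool} (hsymm : ∀ u v, c u v = c v u) {k : Bool}
    {a z : V} {R : List V} (hp : (a :: (R ++ [z])).Nodup)
    (hch : (a :: (R ++ [z])).IsChain (fun u v => c u v = k))
    (hmax : ¬ Pth c k ((a :: (R ++ [z])).length + 1)) {b b' : V} (hb : b ∉ a :: (R ++ [z]))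
    (hb' : b' ∉ a :: (R ++ [z])) (hbb : b ≠ b') (X : Finset V)
    (hX : ∀ x ∈ R, x ∉ X → c b x = k ∨ c b' x = k) (hlen : 2 * X.card + 4 ≤ R.length) :
    False := by
  have hR : R.Nodup := by
    have h1 : (R ++ [z]).Nodup := (List.nodup_cons.mp hp).2
    exact (List.nodup_append.mp h1).1
  have hget : ∀ n (hn : n < R.length), R.getD n a = R[n]'hn := by
    intro n hn
    simp [List.getD, List.getElem?_eq_getElem hn]
  have hinj : ∀ m n, m < R.length → n < R.length → R.getD m a = R.getD n a → m = n := by
    intro m n hm hn h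
    rw [hget m hm, hget n hn] at h
    exact (hR.getElem_inj_iff).mp h
  have hc1 : ((Finset.range (R.length - 1)).filter (fun i => R.getD i a ∈ X)).card ≤ X.card := by
    apply Finset.card_le_card_of_injOn (fun i => R.getD i a)
    · intro i hi
      exact (Finset.mem_filter.mp hi).2
    · intro i hi j hj h
      have hi' := Finset.mem_range.mp (Finset.mem_filter.mp hi).1
      have hj' := Finset.mem_range.mp (Finset.mem_filter.mp hj).1
      exact hinj i j (by omega) (by omega) h
  have hc2 : ((Finset.range (R.length - 1)).filter (fun i => R.getD (i + 1) a ∈ X)).card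
      ≤ X.card := by
    apply Finset.card_le_card_of_injOn (fun i => R.getD (i + 1) a)
    · intro i hi
      exact (Finset.mem_filter.mp hi).2
    · intro i hi j hj h
      have hi' := Finset.mem_range.mp (Finset.mem_filter.mp hi).1
      have hj' := Finset.mem_range.mp (Finset.mem_filter.mp hj).1
      have := hinj (i + 1) (j + 1) (by omega) (by omega) h
      omega
  have hcov : Finset.range (R.length - 1) ⊆
      ((Finset.range (R.length - 1)).filter
        (fun i => R.getD i a ∉ X ∧ R.getD (i + 1) a ∉ X)) ∪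
      (((Finset.range (R.length - 1)).filter (fun i => R.getD i a ∈ X)) ∪
      ((Finset.range (R.length - 1)).filter (fun i => R.getD (i + 1) a ∈ X))) := by
    intro i hi
    simp only [Finset.mem_union, Finset.mem_filter]
    by_cases h1 : R.getD i a ∈ X
    · exact Or.inr (Or.inl ⟨hi, h1⟩)
    · by_cases h2 : R.getD (i + 1) a ∈ X
      · exact Or.inr (Or.inr ⟨hi, h2⟩)
      · exact Or.inl ⟨hi, h1, h2⟩
  have hcard := Finset.card_le_card hcov
  have hu1 := Finset.card_union_le
    ((Finset.range (R.length - 1)).filter (fun i => R.getD i a ∉ X ∧ R.getD (i + 1) a ∉ X))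
    (((Finset.range (R.length - 1)).filter (fun i => R.getD i a ∈ X)) ∪
      ((Finset.range (R.length - 1)).filter (fun i => R.getD (i + 1) a ∈ X)))
  have hu2 := Finset.card_union_le
    ((Finset.range (R.length - 1)).filter (fun i => R.getD i a ∈ X))
    ((Finset.range (R.length - 1)).filter (fun i => R.getD (i + 1) a ∈ X))
  rw [Finset.card_range] at hcard
  have hgood : 2 < ((Finset.range (R.length - 1)).filter
      (fun i => R.getD i a ∉ X ∧ R.getD (i + 1) a ∉ X)).card := by omega
  obtain ⟨i, hi, j, hj, hne, heq⟩ := Finset.exists_ne_map_eq_of_card_lt_of_maps_to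
    (s := (Finset.range (R.length - 1)).filter
      (fun i => R.getD i a ∉ X ∧ R.getD (i + 1) a ∉ X)) (t := (Finset.univ : Finset Bool))
    (f := fun i => decide (c b (R.getD i a) = k)) (by simpa using hgood)
    (fun _ _ => Finset.mem_univ _)
  -- the two types
  have htype : ∀ n, n ∈ (Finset.range (R.length - 1)).filter
      (fun i => R.getD i a ∉ X ∧ R.getD (i + 1) a ∉ X) → ∃ hn : n + 1 < R.length,
      (c b (R[n]'(by omega)) = k → c b' (R[n + 1]'hn) = k) ∧
      (c b (R[n]'(by omega)) ≠ k → c b' (R[n]'(by omega)) = k ∧ c b (R[n + 1]'hn) = k) := by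
    intro n hn
    obtain ⟨hn1, hn2, hn3⟩ := Finset.mem_filter.mp hn
    have hn1' := Finset.mem_range.mp hn1
    have hlt : n + 1 < R.length := by omega
    rw [hget n (by omega)] at hn2
    rw [hget (n + 1) hlt] at hn3
    refine ⟨hlt, ?_, ?_⟩
    · intro h
      have h' := crPair hsymm hp hch hmax hb hlt h
      rcases hX _ (List.getElem_mem hlt) hn3 with h2 | h2
      · exact absurd h2 h'
      · exact h2
    · intro h
      have hb1 : c b' (R[n]'(by omega)) = k := by
        rcases hX _ (List.getElem_mem (show n < R.length by omega)) hn2 with h2 | h2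
        · exact absurd h2 h
        · exact h2
      refine ⟨hb1, ?_⟩
      have h' := crPair hsymm hp hch hmax hb' hlt hb1
      rcases hX _ (List.getElem_mem hlt) hn3 with h2 | h2
      · exact h2
      · exact absurd h2 h'
  have hfin : ∀ i j, i < j → i ∈ (Finset.range (R.length - 1)).filter
      (fun i => R.getD i a ∉ X ∧ R.getD (i + 1) a ∉ X) → j ∈ (Finset.range (R.length - 1)).filter
      (fun i => R.getD i a ∉ X ∧ R.getD (i + 1) a ∉ X) →
      decide (c b (R.getD i a) = k) = decide (c b (R.getD j a) = k) → False := by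
    intro i j hij hi hj he
    obtain ⟨hi1, hi2, hi3⟩ := htype i hi
    obtain ⟨hj1, hj2, hj3⟩ := htype j hj
    rw [hget i (by omega), hget j (by omega)] at he
    by_cases h : c b (R[i]'(by omega)) = k
    · have h' : c b (R[j]'(by omega)) = k := by
        rw [decide_eq_true h] at he
        exact of_decide_eq_true he.symm
      exact crKey hsymm hp hch hmax hb hb' hbb hij hj1 h h' (hi2 h) (hj2 h')
    · have h' : c b (R[j]'(by omega)) ≠ k := by
        rw [decide_eq_false h] at he
        exact of_decide_eq_false he.symm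
      exact crKey hsymm hp hch hmax hb' hb (Ne.symm hbb) hij hj1 (hi3 h).1 (hj3 h').1
        (hi3 h).2 (hj3 h').2
  rcases lt_or_gt_of_ne hne with h | h
  · exact hfin i j h hi hj heq
  · exact hfin j i h hj hi heq.symm

end Pool.Agent.LibFT6
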