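import Pool.Agent.LibFT6.ST
import Pool.Agent.LibFT6.CA
import Pool.Agent.LibFT6.CR

/-!
Row EO (cites ST, CA, CR, `LibPathRamsey.two_colour`). `n = 3 m - 1`, `m ≥ 2`, no path on `2 m + 1`
vertices in one colour: there is a closed path on `2 m - 1` or on `2 m` vertices in one colour.

`two_colour` with `l = 2 m` (relation `c u v = true`) gives a path `p` of colour `k` on `2 m` vertices;
`p = a :: (R ++ [z])`, `R.length = 2 m - 2`; `bs = (univ \ p.toFinset).toList`, length `m - 1`.
If `c z a = k`: closed (`2 m`). Otherwise `c a z = !k`; `st_alt` gives `L`, and `AltL c (!k) a z bs R L`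
(`st_first`, `st_last`). `L = L0 ++ [(b', x')]`. If `a ∉ L0.map snd`: `caseA`, closed path on `2 m - 1`
vertices. Otherwise `L0 = L1 ++ (b, a) :: L3`. `X = ((L1 ++ L3).map snd).toFinset`, `m - 3` elements
(`L1.length + L3.length + 2 = m - 1`, so `m ≥ 3` here).
If some `w ∈ R`, `w ∉ X`, has `c b w = !k` and `c b' w = !k`: `caseB_link`, closed on `2 m - 1` vertices.
Otherwise every `w ∈ R` outside `X` has `c b w = k` or `c b' w = k`, and `2 (m-3) + 4 = 2 m - 2 = R.length`:
`three` gives `False`. (`b ≠ b'` since the first components are distinct; both are in `bs`, hence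
outside `p`.)
-/

namespace Pool.Agent.LibFT6

open Pool.Agent.LibPathRamsey

variable {V : Type*}

theorem existsO [Fintype V] [DecidableEq V] (c : V → V → Bool) (hsymm : ∀ u v, c u v = c v u)
    (m : ℕ) (hm : 2 ≤ m) (hV : Fintype.card V = 3 * m - 1)
    (hno : ∀ k : Bool, ¬ Pth c k (2 * m + 1)) :
    ∃ (k : Bool) (p : List V), IsCyc c k p ∧ (p.length = 2 * m - 1 ∨ p.length = 2 * m) := by
  obtain ⟨k, p, hp, hlen, hch⟩ : ∃ (k : Bool) (p : List V), p.Nodup ∧ p.length = 2 * m ∧
      p.IsChain (fun u v => c u v = k) := by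
    obtain ⟨p, hp, hlen, h⟩ := two_colour (V := V) (fun u v => c u v = true)
      (fun u v h => by rw [hsymm]; exact h) (2 * m) (by omega) (by omega)
    rcases h with h | h
    · exact ⟨true, p, hp, hlen, h⟩
    · refine ⟨false, p, hp, hlen, ?_⟩
      have he : (fun u v : V => ¬ c u v = true) = fun u v => c u v = false := by
        funext u v
        exact propext (Bool.not_eq_true _).to_iff
      rw [← he]
      exact h
  obtain ⟨a, R, z, rfl⟩ : ∃ a R z, p = a :: (R ++ [z]) := by
    cases p with
    | nil =>
      rw [List.length_nil] at hlen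
      omega
    | cons a t =>
      have ht : t ≠ [] := by
        rintro rfl
        rw [List.length_singleton] at hlen
        omega
      exact ⟨a, t.dropLast, t.getLast ht, by rw [List.dropLast_append_getLast ht]⟩
  have hRlen : R.length = 2 * m - 2 := by
    rw [List.length_cons, List.length_append, List.length_singleton] at hlen
    omega
  by_cases hza : c z a = k
  · refine ⟨k, _, ⟨hp, hch, ?_⟩, Or.inr hlen⟩
    intro z' hz' a' ha'
    have h1 : (a :: (R ++ [z])).getLast? = some z := by
      rw [← List.cons_append, List.getLast?_concat]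
    rw [h1, Option.mem_def, Option.some.injEq] at hz'
    rw [List.head?_cons, Option.mem_def, Option.some.injEq] at ha'
    rw [← hz', ← ha', hza]
  have hmax : ¬ Pth c k ((a :: (R ++ [z])).length + 1) := by
    rw [hlen]
    exact hno k
  have hcaz : c a z = !k := by
    rw [hsymm]
    exact Bool.eq_not.2 hza
  have hmemb : ∀ b, b ∈ (Finset.univ \ (a :: (R ++ [z])).toFinset).toList ↔ b ∉ a :: (R ++ [z]) := by
    intro b
    rw [Finset.mem_toList, Finset.mem_sdiff, List.mem_toFinset]
    exact ⟨fun h => h.2, fun h => ⟨Finset.mem_univ _, h⟩⟩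
  obtain ⟨bs, hbs, hbsmem, hbslen⟩ : ∃ bs : List V, bs.Nodup ∧ (∀ b, b ∈ bs ↔ b ∉ a :: (R ++ [z])) ∧
      bs.length = m - 1 := by
    refine ⟨_, Finset.nodup_toList _, hmemb, ?_⟩
    rw [Finset.length_toList, Finset.card_sdiff_of_subset (Finset.subset_univ _), Finset.card_univ, hV,
      List.toFinset_card_of_nodup hp, hlen]
    omega
  have hout : ∀ b ∈ bs, b ∉ a :: (R ++ [z]) := fun b hb => (hbsmem b).1 hb
  have hbsne : bs ≠ [] := by
    rintro rfl
    rw [List.length_nil] at hbslen
    omega
  obtain ⟨L, hLne, hperm, hadj, hchain, hnd, hmem⟩ := st_alt hsymm hp hch hmax bs hbs hout hbsne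
    (by omega)
  have hp' := hp
  rw [List.nodup_cons, List.nodup_append] at hp'
  have haz : a ≠ z := by
    rintro rfl
    exact hp'.1 (List.mem_append_right _ (List.mem_singleton.2 rfl))
  have haR : a ∉ R := fun h => hp'.1 (List.mem_append_left _ h)
  have hzR : z ∉ R := fun h => hp'.2.2.2 z h z (List.mem_singleton.2 rfl) rfl
  have hA : AltL c (!k) a z bs R L := by
    refine ⟨hperm, hbs, hadj, hchain, hnd, hmem, ?_, haz, haR, hzR, ?_, ?_, hcaz⟩
    · intro b hb
      have := hout b hb
      rw [List.mem_cons, List.mem_append, List.mem_singleton] at this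
      push Not at this
      exact ⟨this.1, this.2.2, this.2.1⟩
    · intro b hb
      exact st_first rfl hp hch hmax (hout b hb)
    · intro b hb
      exact st_last hsymm (R := a :: R) rfl hp hch hmax (hout b hb)
  obtain ⟨L0, b', x', rfl⟩ : ∃ L0 b' x', L = L0 ++ [(b', x')] :=
    ⟨L.dropLast, (L.getLast hLne).1, (L.getLast hLne).2, (List.dropLast_append_getLast hLne).symm⟩
  have hLlen := hperm.length_eq
  rw [List.length_map, List.length_append, List.length_singleton, hbslen] at hLlen
  by_cases ha : a ∈ L0.map Prod.snd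
  · obtain ⟨q, hq, hqa⟩ := List.mem_map.1 ha
    obtain ⟨L1, L3, hL0⟩ := List.append_of_mem hq
    obtain ⟨b, a'⟩ := q
    have haa : a' = a := hqa
    subst haa
    subst hL0
    rw [List.length_append, List.length_cons] at hLlen
    have hassoc : (L1 ++ (b, a') :: L3) ++ [(b', x')] = L1 ++ (b, a') :: (L3 ++ [(b', x')]) := by
      rw [List.append_assoc, List.cons_append]
    rw [hassoc] at hA hperm
    have hbin : b ∈ bs := hperm.subset (by simp)
    have hbin' : b' ∈ bs := hperm.subset (by simp)
    have hfn := hperm.nodup_iff.2 hbs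
    have hbb : b ≠ b' := by
      rintro rfl
      rw [List.map_append, List.map_cons, List.map_append, List.nodup_append, List.nodup_cons] at hfn
      exact hfn.2.1.1 (List.mem_append_right _ (by simp))
    by_cases hw : ∃ w ∈ R, w ∉ ((L1 ++ L3).map Prod.snd).toFinset ∧ c b w = (!k) ∧ c b' w = (!k)
    · obtain ⟨w, hwR, hwX, h1, h2⟩ := hw
      rw [List.mem_toFinset, List.map_append, List.mem_append] at hwX
      push Not at hwX
      have := caseB_link hsymm hA hwR hwX.1 hwX.2 h1 h2
      exact ⟨!k, _, this.1, Or.inl (by rw [this.2, hbslen]; omega)⟩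
    · exfalso
      push Not at hw
      have hXc : ((L1 ++ L3).map Prod.snd).toFinset.card ≤ L1.length + L3.length := by
        refine (List.toFinset_card_le _).trans ?_
        rw [List.length_map, List.length_append]
      refine three hsymm hp hch hmax (hout b hbin) (hout b' hbin') hbb
        ((L1 ++ L3).map Prod.snd).toFinset ?_ (by omega)
      intro x hx hxX
      by_cases h : c b x = k
      · exact Or.inl h
      · have h2 := hw x hx hxX (Bool.eq_not.2 h)
        exact Or.inr (by simpa using h2)
  · have := caseA hsymm hA ha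
    exact ⟨!k, _, this.1, Or.inl (by rw [this.2, hbslen]; omega)⟩

end Pool.Agent.LibFT6
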