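import Pool.Agent.LibFT6.Defs

/-!
Row KE (finite counting, `V` of size `3 m - 2`, `m` even, `m ≥ 2`).

From `hstr i`: colour `k i`, set `A i`, `|A i| = 2 m - 1`. `o i u = decide (u ∉ A i)`,
`O u = xor (xor (o 0 u) (o 1 u)) (o 2 u)`, `tau u = number of i with u ∉ A i`. For `u ≠ v` with
`∀ i, u ∈ A i ∨ v ∈ A i` one has `f i u v = xor (k i) (xor (o i u) (o i v))`, so with
`K = xor (xor (k 0) (k 1)) (k 2)`: (PAR) `xor K (xor (O u) (O v)) = true`.
`∑ u, tau u = ∑ i, (3 m - 2 - |A i|) = 3 (m - 1) = card V - 1` (`Finset.sum_comm`).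
`K = true`: some `w` has `tau w = 0` (otherwise the sum is at least `card V`); (PAR) with `w`: `O v = false`
for all `v`, so all `tau v` are even, but `3 (m - 1)` is odd.
`K = false`: two different `w, w'` with `tau = 0` contradict (PAR); so at most one, and since the sum is
`card V - 1`, exactly one `w` has `tau w = 0` and all others have `tau = 1`. For `u ≠ v` both `≠ w` the
unique `i` with `u ∉ A i` is the same for both (otherwise (PAR) applies and `xor true true = false`), so
there is `i` with `A i ⊆ {w}`, against `|A i| = 2 m - 1 ≥ 3`.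
-/

namespace Pool.Agent.LibFT6

variable {V : Type*}

private theorem KE_f (c : V → V → Bool) (k : Bool) (A : Finset V) [DecidableEq V]
    (hsy : ∀ u v, c u v = c v u)
    (hout : ∀ a ∈ A, ∀ b ∉ A, c a b = !k) (hin : ∀ a ∈ A, ∀ b ∈ A, a ≠ b → c a b = k)
    (u v : V) (huv : u ≠ v) (h : u ∈ A ∨ v ∈ A) :
    c u v = xor k (xor (decide (u ∉ A)) (decide (v ∉ A))) := by
  by_cases hu : u ∈ A
  · by_cases hv : v ∈ A
    · simp [hu, hv, hin u hu v hv huv]
    · simp [hu, hv, hout u hu v hv]
  · by_cases hv : v ∈ A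
    · rw [hsy u v]
      simp [hu, hv, hout v hv u hu]
    · exact absurd h (by simp [hu, hv])

private theorem KE_T (A : Fin 3 → Finset V) [DecidableEq V] (u : V) :
    (xor (xor (decide (u ∉ A 0)) (decide (u ∉ A 1))) (decide (u ∉ A 2)) = true ↔
      Odd (∑ i : Fin 3, if u ∈ A i then 0 else 1)) := by
  rw [Fin.sum_univ_three]
  by_cases h0 : u ∈ A 0 <;> by_cases h1 : u ∈ A 1 <;> by_cases h2 : u ∈ A 2 <;>
    simp [h0, h1, h2] <;> decide

theorem four_even [Fintype V] [DecidableEq V] (m : ℕ) (hm : 2 ≤ m) (hme : Even m)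
    (hV : Fintype.card V = 3 * m - 2) (f : Fin 3 → V → V → Bool)
    (hsymm : ∀ i u v, f i u v = f i v u)
    (hpar : ∀ u v, u ≠ v → xor (xor (f 0 u v) (f 1 u v)) (f 2 u v) = true)
    (hstr : ∀ i, StrE (f i) m) : False := by
  unfold StrE at hstr
  choose k A hcard hout hin using hstr
  set T : V → ℕ := fun u => ∑ i : Fin 3, if u ∈ A i then 0 else 1 with hT
  have hsum : ∑ u, T u = 3 * (m - 1) := by
    rw [hT, Finset.sum_comm]
    have h1 : ∀ i : Fin 3, (∑ u : V, if u ∈ A i then 0 else 1) = m - 1 := by
      intro i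
      have h2 : (∑ u : V, if u ∈ A i then (0 : ℕ) else 1)
          = ((Finset.univ : Finset V).filter (fun u => ¬ u ∈ A i)).card := by
        rw [Finset.card_filter]
        refine Finset.sum_congr rfl fun u _ => ?_
        by_cases h : u ∈ A i <;> simp [h]
      rw [h2, Finset.filter_not, Finset.card_sdiff_of_subset (Finset.filter_subset _ _)]
      have h3 : (Finset.univ.filter (fun u => u ∈ A i)) = A i := by
        ext u; simp
      rw [h3, hcard i, Finset.card_univ, hV]
      omega
    simp [h1]
  have hpar' : ∀ u v, u ≠ v → (∀ i, u ∈ A i ∨ v ∈ A i) →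
      xor (xor (xor (k 0) (k 1)) (k 2))
        (xor (xor (xor (decide (u ∉ A 0)) (decide (u ∉ A 1))) (decide (u ∉ A 2)))
          (xor (xor (decide (v ∉ A 0)) (decide (v ∉ A 1))) (decide (v ∉ A 2)))) = true := by
    intro u v huv h
    have hp := hpar u v huv
    rw [KE_f (f 0) (k 0) (A 0) (hsymm 0) (hout 0) (hin 0) u v huv (h 0),
      KE_f (f 1) (k 1) (A 1) (hsymm 1) (hout 1) (hin 1) u v huv (h 1),
      KE_f (f 2) (k 2) (A 2) (hsymm 2) (hout 2) (hin 2) u v huv (h 2)] at hp
    rw [← hp]
    generalize k 0 = k0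
    generalize k 1 = k1
    generalize k 2 = k2
    generalize decide (u ∉ A 0) = a0
    generalize decide (u ∉ A 1) = a1
    generalize decide (u ∉ A 2) = a2
    generalize decide (v ∉ A 0) = b0
    generalize decide (v ∉ A 1) = b1
    generalize decide (v ∉ A 2) = b2
    revert k0 k1 k2 a0 a1 a2 b0 b1 b2
    decide
  have hO : ∀ u, (xor (xor (decide (u ∉ A 0)) (decide (u ∉ A 1))) (decide (u ∉ A 2)) = true ↔
      Odd (T u)) := fun u => KE_T A u
  have hOf : ∀ u, (xor (xor (decide (u ∉ A 0)) (decide (u ∉ A 1))) (decide (u ∉ A 2)) = false ↔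
      Even (T u)) := by
    intro u
    rw [← Nat.not_odd_iff_even, ← hO u, Bool.not_eq_true]
  -- a vertex of all the sets
  have hw : ∃ w, T w = 0 := by
    by_contra hne
    push Not at hne
    have h1 : ∑ _u : V, 1 ≤ ∑ u, T u :=
      Finset.sum_le_sum fun u _ => Nat.one_le_iff_ne_zero.mpr (hne u)
    rw [hsum] at h1
    simp only [Finset.sum_const, Finset.card_univ, smul_eq_mul, mul_one] at h1
    omega
  obtain ⟨w, hw⟩ := hw
  have hwA : ∀ i, w ∈ A i := by
    intro i
    have h1 := (Finset.sum_eq_zero_iff.mp hw) i (Finset.mem_univ i)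
    by_contra h
    simp [h] at h1
  have hOw : xor (xor (decide (w ∉ A 0)) (decide (w ∉ A 1))) (decide (w ∉ A 2)) = false := by
    simp [hwA]
  rcases hK : xor (xor (k 0) (k 1)) (k 2) with _ | _
  · -- K = false
    have hpos : ∀ u, u ≠ w → 1 ≤ T u := by
      intro u hu
      by_contra h
      have h0 : T u = 0 := by omega
      have h1 := hpar' u w hu (fun i => Or.inr (hwA i))
      rw [hK, hOw, (hOf u).mpr (by rw [h0]; exact Even.zero)] at h1
      simp at h1
    have hone : ∀ u, u ≠ w → T u = 1 := by
      have h1 : ∑ u ∈ Finset.univ.erase w, T u = 3 * (m - 1) := by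
        rw [← hsum, ← Finset.add_sum_erase Finset.univ T (Finset.mem_univ w), hw, zero_add]
      have h2 : ∑ u ∈ Finset.univ.erase w, 1 = 3 * (m - 1) := by
        rw [Finset.sum_const, Finset.card_erase_of_mem (Finset.mem_univ w), Finset.card_univ, hV]
        simp only [smul_eq_mul, mul_one]
        omega
      have h3 := (Finset.sum_eq_sum_iff_of_le (s := Finset.univ.erase w) (f := fun _ => 1) (g := T)
        (fun u hu => hpos u (Finset.ne_of_mem_erase hu))).mp (h2.trans h1.symm)
      intro u hu
      exact (h3 u (Finset.mem_erase.mpr ⟨hu, Finset.mem_univ u⟩)).symm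
    -- some other vertex
    obtain ⟨u, hu⟩ : ∃ u, u ≠ w := by
      have h1 : 1 < Fintype.card V := by omega
      obtain ⟨u, hu⟩ := Fintype.exists_ne_of_one_lt_card h1 w
      exact ⟨u, hu⟩
    obtain ⟨i, hi⟩ : ∃ i, u ∉ A i := by
      by_contra h
      push Not at h
      have h1 := hone u hu
      simp [hT, h] at h1
    have huniq : ∀ j, j ≠ i → u ∈ A j := by
      intro j hj
      by_contra h
      have h1 : 2 ≤ T u := by
        have h2 : ∑ l ∈ ({i, j} : Finset (Fin 3)), (if u ∈ A l then 0 else 1) ≤ T u :=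
          Finset.sum_le_sum_of_subset (Finset.subset_univ _)
        rw [Finset.sum_pair (Ne.symm hj)] at h2
        simpa [hi, h] using h2
      have h3 := hone u hu
      omega
    have hall : ∀ v, v ≠ w → v ∉ A i := by
      intro v hv hvi
      have huv : u ≠ v := by
        rintro rfl
        exact hi hvi
      have h1 := hpar' u v huv (fun j => by
        by_cases hj : j = i
        · exact Or.inr (hj ▸ hvi)
        · exact Or.inl (huniq j hj))
      rw [hK, (hO u).mpr (by rw [hone u hu]; exact odd_one),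
        (hO v).mpr (by rw [hone v hv]; exact odd_one)] at h1
      simp at h1
    have hsub : A i ⊆ {w} := by
      intro v hv
      by_contra h
      exact hall v (by simpa using h) hv
    have hc := Finset.card_le_card hsub
    rw [hcard i, Finset.card_singleton] at hc
    omega
  · -- K = true
    have heven : ∀ v, Even (T v) := by
      intro v
      by_cases hv : v = w
      · rw [hv, hw]; exact Even.zero
      · have h1 := hpar' v w hv (fun i => Or.inr (hwA i))
        rw [hK, hOw] at h1
        rw [← hOf v]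
        simpa using h1
    have h2 : Even (∑ u, T u) := Finset.even_sum _ fun u _ => heven u
    rw [hsum] at h2
    obtain ⟨a, ha⟩ := hme
    obtain ⟨b, hb⟩ := h2
    omega

end Pool.Agent.LibFT6
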