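import Pool.Agent.LibFT6.Defs

/-!
Row KO (finite counting, `V` of size `3 m - 1`, `m` even, `m ≥ 2`), the same as KE with exceptions.

From `hstr i`: colour `k i`, set `A i`, `|A i| = 2 m`. `o i u = decide (u ∉ A i)`, `O`, `tau`, `K` as in KE.
`Exc i u v`: `u ≠ v`, `u, v ∈ A i`, `f i u v = !(k i)`; for each `i` all exceptional pairs are the same
unordered pair (last part of `StrO`). Call `u ≠ v` BAD if `∀ i, u ∈ A i ∨ v ∈ A i` and
`xor K (xor (O u) (O v)) = false`. A bad pair is exceptional for some `i` (otherwise all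
`f i u v = xor (k i) (xor (o i u) (o i v))`, against `hpar`). So there are at most 3 bad unordered pairs:
(THREE) among any four different unordered pairs one is not bad.
`∑ u, tau u = 3 (m - 1) = card V - 2`. `W = {tau = 0}`; `|W| ≥ 2` (otherwise the sum is `≥ card V - 1`).
Every pair with an element of `W` satisfies the first condition of BAD.
`K = true`: (`w ∈ W`, `v`) is bad iff `O v = true`. `3 (m - 1)` is odd, so the number of `v` with
`O v = true` is odd. If at least 2 such `v`: with 2 elements of `W` four bad pairs, against (THREE). If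
exactly one, `v0`: all others outside `W` have `tau = 2`; for `w ∈ W` the pair (`w, v0`) is exceptional for
some `i` with `v0 ∈ A i`, different `i` for different `w`, so `|W| ≤ 3 - tau v0`, hence `tau v0 = 1`,
`|W| = 2` and the sum is `1 + 2 (card V - 3)`, which is not `card V - 2` since `card V ≥ 5`.
`K = false`: a pair satisfying the first condition is bad iff `O u = O v`. All pairs inside `W` are bad,
so `|W| ≤ 3` by (THREE).
`|W| = 2`, `W = {w, w'}`: all others have `tau = 1` (sum). `w w'` is exceptional for some `l`. Let `i, j` be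
the other two indices, `u ∉ A i` and `v ∉ A j` (exist, `card V - 2 m = m - 1 ≥ 1`): `tau u = tau v = 1`,
`u, v ∈ A l`, `u ≠ v`; the pair satisfies the first condition and is bad, hence exceptional for an index
`l'` with `u, v ∈ A l'`, so `l' = l`, and then `s(u, v) = s(w, w')`, contradiction (`tau u = 1`).
`|W| = 3`: some `x ∉ W` has `tau x = 2` (the sum over the `card V - 3` others is `card V - 2`); `O x = false`;
for `w ∈ W` the pair `w x` is bad, with the three pairs of `W` four bad pairs, against (THREE).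
-/

namespace Pool.Agent.LibFT6

variable {V : Type*}

private def oo [DecidableEq V] (A : Fin 3 → Finset V) (u : V) : Bool :=
  xor (xor (decide (u ∉ A 0)) (decide (u ∉ A 1))) (decide (u ∉ A 2))

private def ta [DecidableEq V] (A : Fin 3 → Finset V) (u : V) : ℕ :=
  (if u ∈ A 0 then 0 else 1) + (if u ∈ A 1 then 0 else 1) + (if u ∈ A 2 then 0 else 1)

private theorem oo_iff [DecidableEq V] (A : Fin 3 → Finset V) (u : V) :
    oo A u = true ↔ Odd (ta A u) := by
  unfold oo ta
  by_cases h0 : u ∈ A 0 <;> by_cases h1 : u ∈ A 1 <;> by_cases h2 : u ∈ A 2 <;>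
    simp [h0, h1, h2, Nat.odd_iff]

private theorem ta_zero [DecidableEq V] {A : Fin 3 → Finset V} {u : V} :
    ta A u = 0 ↔ ∀ i, u ∈ A i := by
  unfold ta
  rw [Fin.forall_fin_succ, Fin.forall_fin_succ, Fin.forall_fin_one]
  by_cases h0 : u ∈ A 0 <;> by_cases h1 : u ∈ A 1 <;> by_cases h2 : u ∈ A 2 <;>
    simp [h0, h1, h2]

private theorem ta_le [DecidableEq V] (A : Fin 3 → Finset V) (u : V) : ta A u ≤ 3 := by
  unfold ta
  split_ifs <;> omega

private theorem sum_ta [Fintype V] [DecidableEq V] (A : Fin 3 → Finset V) (c : ℕ)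
    (h : ∀ i, (A i).card = c) : ∑ u, ta A u = 3 * (Fintype.card V - c) := by
  have h1 : ∀ i, ∑ u, (if u ∈ A i then 0 else 1) = Fintype.card V - c := by
    intro i
    have : ∑ u, (if u ∈ A i then 0 else 1) = ((A i)ᶜ).card := by
      rw [Finset.card_eq_sum_ones, ← Finset.sum_filter_add_sum_filter_not Finset.univ (· ∈ A i)]
      rw [Finset.sum_eq_zero (s := Finset.univ.filter (· ∈ A i)), zero_add]
      · have : Finset.univ.filter (fun x => ¬ x ∈ A i) = (A i)ᶜ := by
          ext x; simp
        rw [this]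
        refine Finset.sum_congr rfl fun x hx => ?_
        rw [Finset.mem_compl] at hx
        simp [hx]
      · intro x hx
        rw [Finset.mem_filter] at hx
        simp [hx.2]
    rw [this, Finset.card_compl, h]
  unfold ta
  rw [Finset.sum_add_distrib, Finset.sum_add_distrib, h1, h1, h1]
  ring

private theorem exists_exc [DecidableEq V] (f : Fin 3 → V → V → Bool)
    (hsymm : ∀ i u v, f i u v = f i v u)
    (hpar : ∀ u v, u ≠ v → xor (xor (f 0 u v) (f 1 u v)) (f 2 u v) = true)
    (k : Fin 3 → Bool) (A : Fin 3 → Finset V)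
    (hcross : ∀ i, ∀ a ∈ A i, ∀ b ∉ A i, f i a b = !(k i))
    (u v : V) (huv : u ≠ v) (h1 : ∀ i, u ∈ A i ∨ v ∈ A i)
    (hK : xor (xor (xor (k 0) (k 1)) (k 2)) (xor (oo A u) (oo A v)) = false) :
    ∃ i, u ∈ A i ∧ v ∈ A i ∧ f i u v = !(k i) := by
  by_contra h
  push Not at h
  have key : ∀ i, f i u v = xor (k i) (xor (decide (u ∉ A i)) (decide (v ∉ A i))) := by
    intro i
    by_cases hu : u ∈ A i
    · by_cases hv : v ∈ A i
      · have := h i hu hv
        simp only [hu, hv, not_true_eq_false, decide_false, Bool.xor_false, Bool.xor_self]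
        cases hf : f i u v <;> cases hk : k i <;> simp_all
      · rw [hcross i u hu v hv]
        simp [hu, hv]
    · rcases h1 i with h' | h'
      · exact absurd h' hu
      · rw [hsymm, hcross i v h' u hu]
        simp [hu, h']
  have h3 := hpar u v huv
  rw [key 0, key 1, key 2] at h3
  unfold oo at hK
  revert h3 hK
  generalize k 0 = k0
  generalize k 1 = k1
  generalize k 2 = k2
  generalize decide (u ∉ A 0) = a0
  generalize decide (u ∉ A 1) = a1
  generalize decide (u ∉ A 2) = a2
  generalize decide (v ∉ A 0) = b0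
  generalize decide (v ∉ A 1) = b1
  generalize decide (v ∉ A 2) = b2
  revert k0 k1 k2 a0 a1 a2 b0 b1 b2
  decide

private theorem ta_two [DecidableEq V] {A : Fin 3 → Finset V} {u : V} {t t' : Fin 3}
    (h : t' ≠ t) (h1 : u ∉ A t) (h2 : u ∉ A t') : ta A u ≠ 1 := by
  unfold ta
  have hc : (t = 0 ∨ t = 1 ∨ t = 2) ∧ (t' = 0 ∨ t' = 1 ∨ t' = 2) := by
    clear h h1 h2
    revert t t'
    decide
  rcases hc with ⟨rfl | rfl | rfl, rfl | rfl | rfl⟩ <;>
    first
      | exact absurd rfl h
      | (rw [if_neg h1, if_neg h2]; split_ifs <;> omega)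

private theorem others : ∀ l : Fin 3, ∃ i j : Fin 3, i ≠ j ∧ i ≠ l ∧ j ≠ l := by decide

private theorem all3 : ∀ i j l : Fin 3, i ≠ j → i ≠ l → j ≠ l → ∀ t, t = i ∨ t = j ∨ t = l := by
  decide

private theorem pigeon : ∀ a b c d : Fin 3,
    a = b ∨ a = c ∨ a = d ∨ b = c ∨ b = d ∨ c = d := by decide

theorem four_odd [Fintype V] [DecidableEq V] (m : ℕ) (hm : 2 ≤ m) (hme : Even m)
    (hV : Fintype.card V = 3 * m - 1) (f : Fin 3 → V → V → Bool)
    (hsymm : ∀ i u v, f i u v = f i v u)
    (hpar : ∀ u v, u ≠ v → xor (xor (f 0 u v) (f 1 u v)) (f 2 u v) = true)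
    (hstr : ∀ i, StrO (f i) m) : False := by
  choose k A hcard hcross hexc using hstr
  have hn : 5 ≤ Fintype.card V := by omega
  have hsum : ∑ u, ta A u = 3 * (m - 1) := by
    rw [sum_ta A (2 * m) hcard, hV]
    congr 1
    omega
  have hex := exists_exc f hsymm hpar k A hcross
  -- four bad pairs are not pairwise different
  have hfour : ∀ a b c d a' b' c' d' : V,
      (∃ i, a ∈ A i ∧ a' ∈ A i ∧ f i a a' = !(k i)) →
      (∃ i, b ∈ A i ∧ b' ∈ A i ∧ f i b b' = !(k i)) →
      (∃ i, c ∈ A i ∧ c' ∈ A i ∧ f i c c' = !(k i)) →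
      (∃ i, d ∈ A i ∧ d' ∈ A i ∧ f i d d' = !(k i)) →
      a ≠ a' → b ≠ b' → c ≠ c' → d ≠ d' →
      s(a, a') ≠ s(b, b') → s(a, a') ≠ s(c, c') → s(a, a') ≠ s(d, d') →
      s(b, b') ≠ s(c, c') → s(b, b') ≠ s(d, d') → s(c, c') ≠ s(d, d') → False := by
    rintro a b c d a' b' c' d' ⟨ia, ha1, ha2, ha3⟩ ⟨ib, hb1, hb2, hb3⟩ ⟨ic, hc1, hc2, hc3⟩
      ⟨id, hd1, hd2, hd3⟩ na nb nc nd h1 h2 h3 h4 h5 h6
    rcases pigeon ia ib ic id with h | h | h | h | h | h <;> subst h
    · exact h1 (hexc _ a ha1 a' ha2 b hb1 b' hb2 na nb ha3 hb3)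
    · exact h2 (hexc _ a ha1 a' ha2 c hc1 c' hc2 na nc ha3 hc3)
    · exact h3 (hexc _ a ha1 a' ha2 d hd1 d' hd2 na nd ha3 hd3)
    · exact h4 (hexc _ b hb1 b' hb2 c hc1 c' hc2 nb nc hb3 hc3)
    · exact h5 (hexc _ b hb1 b' hb2 d hd1 d' hd2 nb nd hb3 hd3)
    · exact h6 (hexc _ c hc1 c' hc2 d hd1 d' hd2 nc nd hc3 hd3)
  obtain ⟨W, hW⟩ : ∃ W : Finset V, W = Finset.univ.filter (fun u => ta A u = 0) := ⟨_, rfl⟩
  have hWm : ∀ u, u ∈ W ↔ ta A u = 0 := by
    intro u; rw [hW, Finset.mem_filter]; simp
  have hWo : ∀ u ∈ W, oo A u = false := by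
    intro u hu
    have h1 : ¬ (oo A u = true) := by
      rw [oo_iff, (hWm u).1 hu]; decide
    simpa using h1
  have hsplit : ∑ u ∈ Wᶜ, ta A u = 3 * (m - 1) := by
    rw [← hsum, ← Finset.sum_add_sum_compl W]
    rw [Finset.sum_eq_zero (s := W) (fun u hu => (hWm u).1 hu), zero_add]
  have hWc : (Wᶜ).card = Fintype.card V - W.card := Finset.card_compl W
  have hWle : W.card ≤ Fintype.card V := Finset.card_le_univ W
  have hpos : ∀ u ∈ Wᶜ, 1 ≤ ta A u := by
    intro u hu
    rw [Finset.mem_compl, hWm] at hu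
    omega
  have hW2 : 2 ≤ W.card := by
    by_contra hlt
    have h1 : (Wᶜ).card • 1 ≤ ∑ u ∈ Wᶜ, ta A u := Finset.card_nsmul_le_sum _ _ _ hpos
    rw [hsplit, smul_eq_mul, mul_one, hWc] at h1
    omega
  obtain ⟨K, hK⟩ : ∃ K, K = xor (xor (k 0) (k 1)) (k 2) := ⟨_, rfl⟩
  rw [← hK] at hex
  obtain ⟨w1, hw1, w2, hw2, hw12⟩ := Finset.one_lt_card.1 hW2
  have hwA : ∀ w ∈ W, ∀ i, w ∈ A i := fun w hw => ta_zero.1 ((hWm w).1 hw)
  cases K with
  | true =>
    have hbad : ∀ w ∈ W, ∀ v, Odd (ta A v) → w ≠ v ∧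
        ∃ i, w ∈ A i ∧ v ∈ A i ∧ f i w v = !(k i) := by
      intro w hw v hv
      have hne : w ≠ v := by
        rintro rfl
        rw [(hWm w).1 hw] at hv
        exact absurd hv (by decide)
      refine ⟨hne, hex w v hne (fun i => Or.inl (hwA w hw i)) ?_⟩
      rw [hWo w hw, (oo_iff A v).2 hv]
      rfl
    have hodd : Odd (∑ u, ta A u) := by
      rw [hsum]
      obtain ⟨r, hr⟩ := hme
      exact ⟨3 * r - 2, by omega⟩
    rw [Finset.odd_sum_iff_odd_card_odd] at hodd
    obtain ⟨D, hD⟩ : ∃ D : Finset V, D = Finset.univ.filter (fun u => Odd (ta A u)) := ⟨_, rfl⟩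
    rw [← hD] at hodd
    have hDm : ∀ u, u ∈ D ↔ Odd (ta A u) := by
      intro u; rw [hD, Finset.mem_filter]; simp
    by_cases hD2 : 1 < D.card
    · obtain ⟨v1, hv1, v2, hv2, hv12⟩ := Finset.one_lt_card.1 hD2
      obtain ⟨n11, e11⟩ := hbad w1 hw1 v1 ((hDm _).1 hv1)
      obtain ⟨n12, e12⟩ := hbad w1 hw1 v2 ((hDm _).1 hv2)
      obtain ⟨n21, e21⟩ := hbad w2 hw2 v1 ((hDm _).1 hv1)
      obtain ⟨n22, e22⟩ := hbad w2 hw2 v2 ((hDm _).1 hv2)
      refine hfour _ _ _ _ _ _ _ _ e11 e12 e21 e22 n11 n12 n21 n22 ?_ ?_ ?_ ?_ ?_ ?_ <;>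
        (intro h; rw [Sym2.eq_iff] at h; rcases h with ⟨h, h'⟩ | ⟨h, h'⟩ <;> tauto)
    · have hD1 : D.card = 1 := by
        obtain ⟨r, hr⟩ := hodd
        omega
      obtain ⟨v0, hv0⟩ := Finset.card_eq_one.1 hD1
      have hv0D : v0 ∈ D := by rw [hv0]; exact Finset.mem_singleton_self _
      have hv0o : Odd (ta A v0) := (hDm _).1 hv0D
      have hv0W : v0 ∉ W := by
        intro h
        rw [(hWm _).1 h] at hv0o
        exact absurd hv0o (by decide)
      have htwo : ∀ u ∈ Wᶜ.erase v0, ta A u = 2 := by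
        intro u hu
        rw [Finset.mem_erase, Finset.mem_compl, hWm] at hu
        have h1 : ¬ Odd (ta A u) := by
          rw [← hDm, hv0, Finset.mem_singleton]; exact hu.1
        have h2 := ta_le A u
        rw [Nat.odd_iff] at h1
        omega
      have hs2 : ∑ u ∈ Wᶜ, ta A u = ta A v0 + ∑ u ∈ Wᶜ.erase v0, ta A u :=
        (Finset.add_sum_erase _ _ (Finset.mem_compl.2 hv0W)).symm
      rw [Finset.sum_congr rfl htwo, Finset.sum_const, smul_eq_mul,
        Finset.card_erase_of_mem (Finset.mem_compl.2 hv0W), hsplit, hWc] at hs2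
      -- `W` injects into the indices `i` with `v0 ∈ A i`
      have hinj : W.card ≤ (Finset.univ.filter (fun i : Fin 3 => v0 ∈ A i)).card := by
        have hc : ∀ w ∈ W, ∃ i, w ∈ A i ∧ v0 ∈ A i ∧ f i w v0 = !(k i) :=
          fun w hw => (hbad w hw v0 hv0o).2
        choose! g hg using hc
        refine Finset.card_le_card_of_injOn g ?_ ?_
        · intro w hw
          have := (hg w hw).2.1
          simpa using this
        · intro w hw w' hw' hgg
          have h1 := hg w hw
          have h2 := hg w' hw'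
          have hgg' : g w = g w' := hgg
          rw [← hgg'] at h2
          have h3 := hexc (g w) w h1.1 v0 h1.2.1 w' h2.1 v0 h1.2.1 (hbad w hw v0 hv0o).1
            (hbad w' hw' v0 hv0o).1 h1.2.2 h2.2.2
          rw [Sym2.eq_iff] at h3
          rcases h3 with ⟨h3, -⟩ | ⟨h3, h4⟩
          · exact h3
          · exact absurd h3 (hbad w hw v0 hv0o).1
      have hlt : (Finset.univ.filter (fun i : Fin 3 => v0 ∈ A i)).card ≤ 2 := by
        have h1 : ¬ (∀ i, v0 ∈ A i) := by
          rw [← ta_zero, ← hWm]; exact hv0W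
        have h2 : (Finset.univ.filter (fun i : Fin 3 => v0 ∈ A i)) ⊂ Finset.univ := by
          rw [Finset.ssubset_univ_iff, ne_eq, Finset.filter_eq_self]
          simpa using h1
        have h3 := Finset.card_lt_card h2
        simp only [Finset.card_univ, Fintype.card_fin] at h3
        omega
      have hpos0 : 1 ≤ ta A v0 := hv0o.pos
      omega
  | false =>
    have hbad : ∀ u v, u ≠ v → (∀ i, u ∈ A i ∨ v ∈ A i) → oo A u = oo A v →
        ∃ i, u ∈ A i ∧ v ∈ A i ∧ f i u v = !(k i) := by
      intro u v huv h1 h2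
      refine hex u v huv h1 ?_
      rw [h2]
      simp
    have hWW : ∀ u ∈ W, ∀ v ∈ W, u ≠ v → ∃ i, u ∈ A i ∧ v ∈ A i ∧ f i u v = !(k i) :=
      fun u hu v hv huv => hbad u v huv (fun i => Or.inl (hwA u hu i))
        ((hWo u hu).trans (hWo v hv).symm)
    by_cases hW3 : 2 < W.card
    · obtain ⟨a, ha, b, hb, c, hc, hab, hac, hbc⟩ := Finset.two_lt_card.1 hW3
      -- a fourth element
      have hfin : ∀ x, x ≠ a → x ≠ b → x ≠ c → (∃ i, a ∈ A i ∧ x ∈ A i ∧ f i a x = !(k i)) →
          False := by
        intro x hxa hxb hxc hx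
        refine hfour a a b a b c c x (hWW a ha b hb hab) (hWW a ha c hc hac) (hWW b hb c hc hbc) hx
          hab hac hbc (Ne.symm hxa) ?_ ?_ ?_ ?_ ?_ ?_ <;>
          (intro h; rw [Sym2.eq_iff] at h; rcases h with ⟨h, h'⟩ | ⟨h, h'⟩ <;>
            first | exact hab h | exact hac h | exact hbc h | exact hab h' | exact hac h' |
              exact hbc h' | exact hab h.symm | exact hac h.symm | exact hbc h.symm |
              exact hab h'.symm | exact hac h'.symm | exact hbc h'.symm |
              exact hxa h | exact hxb h | exact hxc h | exact hxa h.symm | exact hxb h.symm |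
              exact hxc h.symm | exact hxa h' | exact hxb h' | exact hxc h' |
              exact hxa h'.symm | exact hxb h'.symm | exact hxc h'.symm)
      by_cases hx : ∃ x ∈ W, x ≠ a ∧ x ≠ b ∧ x ≠ c
      · obtain ⟨x, hxW, hxa, hxb, hxc⟩ := hx
        exact hfin x hxa hxb hxc (hWW a ha x hxW (Ne.symm hxa))
      · push Not at hx
        have hWeq : W ⊆ {a, b, c} := by
          intro x hx'
          rw [Finset.mem_insert, Finset.mem_insert, Finset.mem_singleton]
          by_cases h1 : x = a
          · exact Or.inl h1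
          · by_cases h2 : x = b
            · exact Or.inr (Or.inl h2)
            · exact Or.inr (Or.inr (hx x hx' h1 h2))
        have hWcard : W.card ≤ 3 := (Finset.card_le_card hWeq).trans Finset.card_le_three
        have hWcard' : W.card = 3 := by omega
        -- an element with `ta = 2`
        have hx2 : ∃ x ∈ Wᶜ, 2 ≤ ta A x := by
          by_contra hno
          push Not at hno
          have h1 : ∑ u ∈ Wᶜ, ta A u ≤ (Wᶜ).card • 1 :=
            Finset.sum_le_card_nsmul _ _ _ (fun u hu => by have := hno u hu; omega)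
          rw [hsplit, smul_eq_mul, mul_one, hWc] at h1
          omega
        obtain ⟨x, hxW, hx2⟩ := hx2
        have hx3 : ta A x = 2 := by
          have h1 : ((Wᶜ).erase x).card • 1 ≤ ∑ u ∈ (Wᶜ).erase x, ta A u :=
            Finset.card_nsmul_le_sum _ _ _ (fun u hu => hpos u (Finset.mem_of_mem_erase hu))
          have h2 := Finset.add_sum_erase _ (ta A) hxW
          rw [hsplit] at h2
          rw [smul_eq_mul, mul_one, Finset.card_erase_of_mem hxW, hWc] at h1
          omega
        have hxo : oo A x = false := by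
          have h1 : ¬ (oo A x = true) := by
            rw [oo_iff, hx3]; decide
          simpa using h1
        rw [Finset.mem_compl] at hxW
        have hxa : x ≠ a := by rintro rfl; exact hxW ha
        have hxb : x ≠ b := by rintro rfl; exact hxW hb
        have hxc : x ≠ c := by rintro rfl; exact hxW hc
        exact hfin x hxa hxb hxc (hbad a x (Ne.symm hxa) (fun i => Or.inl (hwA a ha i))
          ((hWo a ha).trans hxo.symm))
    · have hWcard : W.card = 2 := by omega
      have hone : ∀ u ∈ Wᶜ, ta A u = 1 := by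
        intro x hxW
        have h1 : ((Wᶜ).erase x).card • 1 ≤ ∑ u ∈ (Wᶜ).erase x, ta A u :=
          Finset.card_nsmul_le_sum _ _ _ (fun u hu => hpos u (Finset.mem_of_mem_erase hu))
        have h2 := Finset.add_sum_erase _ (ta A) hxW
        have h3 := hpos x hxW
        rw [hsplit] at h2
        rw [smul_eq_mul, mul_one, Finset.card_erase_of_mem hxW, hWc] at h1
        omega
      obtain ⟨l, hl1, hl2, hl3⟩ := hWW w1 hw1 w2 hw2 hw12
      obtain ⟨i, j, hne, hil, hjl⟩ := others l
      have hall : ∀ t : Fin 3, t = i ∨ t = j ∨ t = l := all3 i j l hne hil hjl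
      have hout : ∀ t, ∃ u, u ∉ A t := by
        intro t
        by_contra hno
        push Not at hno
        have h1 : A t = Finset.univ := Finset.eq_univ_iff_forall.2 hno
        have h2 := hcard t
        rw [h1, Finset.card_univ] at h2
        omega
      have honly : ∀ u t t', u ∉ A t → t' ≠ t → u ∈ A t' := by
        intro u t t' hu htt'
        have h1 : ta A u = 1 := by
          refine hone u ?_
          rw [Finset.mem_compl]
          intro h
          exact hu (hwA u h t)
        by_contra hu'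
        exact ta_two htt' hu hu' h1
      obtain ⟨u, hu⟩ := hout i
      obtain ⟨v, hv⟩ := hout j
      have huj := honly u i j hu hne.symm
      have hul := honly u i l hu hil.symm
      have hvi := honly v j i hv hne
      have hvl := honly v j l hv hjl.symm
      have huv : u ≠ v := by rintro rfl; exact hu hvi
      have huW : u ∈ Wᶜ := by
        rw [Finset.mem_compl]; intro h; exact hu (hwA u h i)
      have hvW : v ∈ Wᶜ := by
        rw [Finset.mem_compl]; intro h; exact hv (hwA v h j)
      have huo : oo A u = true := by rw [oo_iff, hone u huW]; decide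
      have hvo : oo A v = true := by rw [oo_iff, hone v hvW]; decide
      obtain ⟨l', h1, h2, h3⟩ := hbad u v huv (fun t => by
        rcases hall t with rfl | rfl | rfl
        · exact Or.inr hvi
        · exact Or.inl huj
        · exact Or.inl hul) (huo.trans hvo.symm)
      have hl' : l' = l := by
        rcases hall l' with h | h | h
        · rw [h] at h1; exact absurd h1 hu
        · rw [h] at h2; exact absurd h2 hv
        · exact h
      subst hl'
      have h4 := hexc l' u h1 v h2 w1 hl1 w2 hl2 huv hw12 h3 hl3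
      rw [Finset.mem_compl] at huW
      rw [Sym2.eq_iff] at h4
      rcases h4 with ⟨h4, -⟩ | ⟨h4, -⟩
      · rw [h4] at huW; exact huW hw1
      · rw [h4] at huW; exact huW hw2

end Pool.Agent.LibFT6
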