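import Pool.Agent.LibFT6.Defs

/-!
Row C2 (lists only).

`half_count`: no two consecutive elements satisfy `S`: at most `(length + 1) / 2` elements satisfy `S`
(strong induction: `[]`, `[x]`, `x :: y :: l`: one of `x`, `y` at most; if `S x` then not `S y` ...;
simplest: `x :: l` with `¬ S x`: induction on `l`; `x :: y :: l` with `S x`, `¬ S y`: induction on `l`).
`odd_cycle_count`: a cyclic list of odd length `2 j + 1`: `a :: t`; if `¬ S a` use `half_count` on `t`
(length `2 j`); if `S a` then `t = b :: mid ++ [z]` with `¬ S b`, `¬ S z` (`j ≥ 1`; for `j = 0` the
closing condition says `¬ (S a ∧ S a)`) and `half_count` on `mid` (length `2 j - 2`).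
`zip_path`: `q = flat (bs.zip zs)`, `flat_chain`, `flat_nodup`, `length_flat`, `mem_flat` of
`LibPathRamsey`; `List.map_fst_zip`, `List.map_snd_zip`.
-/

namespace Pool.Agent.LibFT6

open Pool.Agent.LibPathRamsey

variable {V : Type*}

private theorem half_count_aux (S : V → Prop) [DecidablePred S] : ∀ (l : List V),
    l.IsChain (fun u v => ¬ (S u ∧ S v)) →
    (l.filter (fun v => decide (S v))).length ≤ (l.length + 1) / 2
  | [], _ => by simp
  | [x], _ => by by_cases hx : S x <;> simp [hx]
  | x :: y :: l, h => by
    rw [List.isChain_cons_cons] at h
    have hl : l.IsChain (fun u v => ¬ (S u ∧ S v)) := h.2.tail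
    have ih := half_count_aux S l hl
    by_cases hx : S x
    · have hy : ¬ S y := fun hy => h.1 ⟨hx, hy⟩
      simp only [List.filter_cons, hx, hy, decide_true, decide_false, if_true, List.length_cons]
      simp only [Bool.false_eq_true, if_false]
      omega
    · have ih2 : ((y :: l).filter (fun v => decide (S v))).length ≤ l.length / 2 + 1 := by
        by_cases hy : S y
        · simp only [List.filter_cons, hy, decide_true, if_true, List.length_cons]
          cases l with
          | nil => simp
          | cons z l =>
            have h2 := h.2
            rw [List.isChain_cons_cons] at h2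
            have hz : ¬ S z := fun hz => h2.1 ⟨hy, hz⟩
            have ih3 := half_count_aux S l h2.2.tail
            simp only [List.filter_cons, hz, decide_false, List.length_cons, Bool.false_eq_true,
              if_false]
            omega
        · simp only [List.filter_cons, hy, decide_false, Bool.false_eq_true, if_false]
          omega
      simp only [List.filter_cons (x := x), hx, decide_false, Bool.false_eq_true, if_false,
        List.length_cons]
      omega
  termination_by l => l.length

theorem half_count (S : V → Prop) [DecidablePred S] (l : List V)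
    (h : l.IsChain (fun u v => ¬ (S u ∧ S v))) :
    (l.filter (fun v => decide (S v))).length ≤ (l.length + 1) / 2 := by
  exact half_count_aux S l h

theorem odd_cycle_count (S : V → Prop) [DecidablePred S] (l : List V) (j : ℕ)
    (hl : l.length = 2 * j + 1) (h : l.IsChain (fun u v => ¬ (S u ∧ S v)))
    (hc : ∀ z ∈ l.getLast?, ∀ a ∈ l.head?, ¬ (S z ∧ S a)) :
    (l.filter (fun v => decide (S v))).length ≤ j := by
  cases l with
  | nil => simp at hl
  | cons a t =>
    have ht : t.length = 2 * j := by simpa using hl
    have hct : t.IsChain (fun u v => ¬ (S u ∧ S v)) := h.tail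
    by_cases ha : S a
    · cases t with
      | nil =>
        exfalso
        exact hc a (by simp) a (by simp) ⟨ha, ha⟩
      | cons b t' =>
        rw [List.isChain_cons_cons] at h
        have hb : ¬ S b := fun hb => h.1 ⟨ha, hb⟩
        rcases List.eq_nil_or_concat t' with rfl | ⟨mid, z, rfl⟩
        · simp at ht
          omega
        · have hz : ¬ S z := by
            intro hz
            refine hc z ?_ a (by simp) ⟨hz, ha⟩
            rw [List.concat_eq_append, ← List.cons_append, ← List.cons_append, List.getLast?_append]
            simp
          have hmid : mid.IsChain (fun u v => ¬ (S u ∧ S v)) := by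
            have h3 := h.2.tail
            rw [List.concat_eq_append] at h3
            exact (List.isChain_append.1 h3).1
          have h4 := half_count S mid hmid
          have h5 : mid.length + 2 = 2 * j := by simpa using ht
          simp only [List.concat_eq_append, List.filter_cons, List.filter_append, ha, hb, hz,
            decide_true, decide_false, if_true, List.length_cons, Bool.false_eq_true, if_false,
            List.filter_nil, List.append_nil]
          omega
    · have h1 := half_count S t hct
      simp only [List.filter_cons, ha, decide_false, Bool.false_eq_true, if_false]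
      omega

private lemma flat_getLast (L : List (V × V)) :
    (flat L).getLast? = (L.map Prod.snd).getLast? := by
  induction L with
  | nil => rfl
  | cons q L ih =>
    cases L with
    | nil => simp
    | cons q' L =>
      rw [flat_cons, flat_cons, List.getLast?_cons_cons, List.getLast?_cons_cons, ← flat_cons, ih,
        List.map_cons, List.map_cons, List.map_cons, List.getLast?_cons_cons]

/-- alternating path through two lists which are completely joined in colour `k` -/
theorem zip_path {c : V → V → Bool} (hsymm : ∀ u v, c u v = c v u) {k : Bool} (bs zs : List V)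
    (hlen : bs.length = zs.length) (hnd : (bs ++ zs).Nodup)
    (hcr : ∀ b ∈ bs, ∀ z ∈ zs, c b z = k) :
    ∃ q : List V, q.Nodup ∧ q.length = 2 * bs.length ∧ q.IsChain (fun u v => c u v = k) ∧
      q.head? = bs.head? ∧ q.getLast? = zs.getLast? ∧ ∀ x ∈ q, x ∈ bs ∨ x ∈ zs := by
  have hf : (bs.zip zs).map Prod.fst = bs := List.map_fst_zip (by omega)
  have hs : (bs.zip zs).map Prod.snd = zs := List.map_snd_zip (by omega)
  rw [List.nodup_append] at hnd
  have hmem : ∀ q ∈ bs.zip zs, q.1 ∈ bs ∧ q.2 ∈ zs := by
    intro q hq
    exact ⟨hf ▸ List.mem_map_of_mem hq, hs ▸ List.mem_map_of_mem hq⟩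
  refine ⟨flat (bs.zip zs), ?_, ?_, ?_, ?_, ?_, ?_⟩
  · apply flat_nodup
    · rw [hf]; exact hnd.1
    · rw [hs]; exact hnd.2.1
    · rw [hf, hs]
      intro x hx hx'
      exact hnd.2.2 x hx x hx' rfl
  · rw [length_flat, List.length_zip, ← hlen, Nat.min_self]
  · apply flat_chain
    · intro q hq
      exact hcr _ (hmem q hq).1 _ (hmem q hq).2
    · apply List.Pairwise.isChain
      apply List.pairwise_of_forall_mem_list
      intro q hq q' hq'
      rw [hsymm]
      exact hcr _ (hmem q' hq').1 _ (hmem q hq).2
  · cases bs with
    | nil => rfl
    | cons b bs =>
      cases zs with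
      | nil => simp at hlen
      | cons z zs => rfl
  · rw [flat_getLast, hs]
  · intro x hx
    rw [mem_flat, hf, hs] at hx
    exact hx

end Pool.Agent.LibFT6
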