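import Pool.Agent.LibFT6.C1
import Pool.Agent.LibFT6.C2

/-!
Row SO (cites C1, C2). A closed path `p` on `2 m` vertices in colour `k` gives the structure:
`A = p.toFinset`. Outside there are `m - 1` vertices, `U`. Cross edges: `cyc_ext` and `h1`.
Two different edges `a b`, `a' b'` of colour `!k` inside `A`:
(i) they share a vertex: `x y z` distinct with `c x y = !k`, `c y z = !k`; `zs` = `m - 1` elements of
`A` without `x, y, z` (`2 m - 3 ≥ m - 1`): path `x :: y :: z :: q`, `q` from `zip_path U zs` starting in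
`U`: `2 m + 1` vertices in colour `!k`, against `h2`.
(ii) disjoint: `zs` = `m - 2` elements of `A` without the four (`2 m - 4 ≥ m - 2`), `U = u :: U'`:
`q` from `zip_path U' zs`... i.e. the path `a, b, q', u, a', b'` where `q'` alternates starting in `U`
and ending in `A`: `q'` from `zip_path U' zs` (`m - 2` each; may be empty), then `u`, `a'`, `b'`:
`2 + 2 (m - 2) + 1 + 2 = 2 m + 1` vertices.
-/

namespace Pool.Agent.LibFT6

variable {V : Type*}

/-- the common part: a path `pre ++ q` -/
private theorem so_share [Fintype V] [DecidableEq V] (c : V → V → Bool)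
    (hsymm : ∀ u v, c u v = c v u) (m : ℕ) (hm : 2 ≤ m) (k : Bool) (A : Finset V)
    (hA : A.card = 2 * m) (hAc : Aᶜ.card = m - 1) (hcr : ∀ a ∈ A, ∀ b ∉ A, c a b = !k)
    {x y z : V} (hx : x ∈ A) (hy : y ∈ A) (hz : z ∈ A) (hxy : x ≠ y) (hyz : y ≠ z) (hxz : x ≠ z)
    (h1 : c x y = !k) (h2 : c y z = !k) : Pth c (!k) (2 * m + 1) := by
  have hsub : ({x, y, z} : Finset V) ⊆ A := by
    intro w hw
    simp only [Finset.mem_insert, Finset.mem_singleton] at hw
    rcases hw with rfl | rfl | rfl <;> assumption
  have hc3 : ({x, y, z} : Finset V).card = 3 := by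
    rw [Finset.card_insert_of_notMem, Finset.card_insert_of_notMem, Finset.card_singleton]
    · simp [hyz]
    · simp [hxy, hxz]
  have hcard : (A \ {x, y, z}).card = 2 * m - 3 := by
    rw [Finset.card_sdiff_of_subset hsub, hA, hc3]
  obtain ⟨T, hT, hTc⟩ := Finset.exists_subset_card_eq (s := A \ {x, y, z}) (n := m - 1)
    (by omega)
  have hTA : ∀ t ∈ T, t ∈ A ∧ t ≠ x ∧ t ≠ y ∧ t ≠ z := by
    intro t ht
    have := hT ht
    simp only [Finset.mem_sdiff, Finset.mem_insert, Finset.mem_singleton, not_or] at this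
    exact ⟨this.1, this.2.1, this.2.2.1, this.2.2.2⟩
  obtain ⟨q, hq1, hq2, hq3, hq4, -, hq6⟩ := zip_path hsymm (k := !k) (c := c)
    Aᶜ.toList T.toList (by rw [Finset.length_toList, Finset.length_toList, hAc, hTc])
    (by
      apply List.Nodup.append (Finset.nodup_toList _) (Finset.nodup_toList _)
      intro w hw1 hw2
      rw [Finset.mem_toList, Finset.mem_compl] at hw1
      rw [Finset.mem_toList] at hw2
      exact hw1 (hTA w hw2).1)
    (by
      intro b hb z hz
      rw [Finset.mem_toList, Finset.mem_compl] at hb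
      rw [Finset.mem_toList] at hz
      rw [hsymm]
      exact hcr z (hTA z hz).1 b hb)
  have hqm : ∀ w ∈ q, w ∉ A ∨ (w ∈ A ∧ w ≠ x ∧ w ≠ y ∧ w ≠ z) := by
    intro w hw
    rcases hq6 w hw with h | h
    · left
      rwa [Finset.mem_toList, Finset.mem_compl] at h
    · right
      rw [Finset.mem_toList] at h
      exact hTA w h
  refine ⟨x :: y :: z :: q, ?_, ?_, ?_⟩
  · have hxq : x ∉ q := by
      intro h
      rcases hqm x h with h | h
      · exact h hx
      · exact h.2.1 rfl
    have hyq : y ∉ q := by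
      intro h
      rcases hqm y h with h | h
      · exact h hy
      · exact h.2.2.1 rfl
    have hzq : z ∉ q := by
      intro h
      rcases hqm z h with h | h
      · exact h hz
      · exact h.2.2.2 rfl
    simp only [List.nodup_cons, List.mem_cons, not_or]
    exact ⟨⟨hxy, hxz, hxq⟩, ⟨hyz, hyq⟩, hzq, hq1⟩
  · simp only [List.length_cons, hq2, Finset.length_toList, hAc]
    omega
  · rw [List.isChain_cons_cons, List.isChain_cons_cons, List.isChain_cons]
    refine ⟨h1, h2, ?_, hq3⟩
    intro w hw
    rw [hq4] at hw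
    have hw' := List.mem_of_mem_head? hw
    rw [Finset.mem_toList, Finset.mem_compl] at hw'
    exact hcr z hz w hw'

private theorem so_disj [Fintype V] [DecidableEq V] (c : V → V → Bool)
    (hsymm : ∀ u v, c u v = c v u) (m : ℕ) (hm : 2 ≤ m) (k : Bool) (A : Finset V)
    (hA : A.card = 2 * m) (hAc : Aᶜ.card = m - 1) (hcr : ∀ a ∈ A, ∀ b ∉ A, c a b = !k)
    {a b a' b' : V} (ha : a ∈ A) (hb : b ∈ A) (ha' : a' ∈ A) (hb' : b' ∈ A)
    (hab : a ≠ b) (haa' : a ≠ a') (hab' : a ≠ b') (hba' : b ≠ a') (hbb' : b ≠ b')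
    (hab'' : a' ≠ b')
    (h1 : c a b = !k) (h2 : c a' b' = !k) : Pth c (!k) (2 * m + 1) := by
  have hsub : ({a, b, a', b'} : Finset V) ⊆ A := by
    intro w hw
    simp only [Finset.mem_insert, Finset.mem_singleton] at hw
    rcases hw with rfl | rfl | rfl | rfl <;> assumption
  have hc4 : ({a, b, a', b'} : Finset V).card = 4 := by
    rw [Finset.card_insert_of_notMem, Finset.card_insert_of_notMem,
      Finset.card_insert_of_notMem, Finset.card_singleton]
    · simp [hab'']
    · simp [hba', hbb']
    · simp [hab, haa', hab']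
  have hcard : (A \ {a, b, a', b'}).card = 2 * m - 4 := by
    rw [Finset.card_sdiff_of_subset hsub, hA, hc4]
  obtain ⟨T, hT, hTc⟩ := Finset.exists_subset_card_eq (s := A \ {a, b, a', b'}) (n := m - 2)
    (by omega)
  have hTA : ∀ t ∈ T, t ∈ A ∧ t ≠ a ∧ t ≠ b ∧ t ≠ a' ∧ t ≠ b' := by
    intro t ht
    have := hT ht
    simp only [Finset.mem_sdiff, Finset.mem_insert, Finset.mem_singleton, not_or] at this
    exact ⟨this.1, this.2.1, this.2.2.1, this.2.2.2.1, this.2.2.2.2⟩
  have hlenU : Aᶜ.toList.length = m - 1 := by rw [Finset.length_toList, hAc]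
  obtain ⟨u, U', hU⟩ : ∃ u U', Aᶜ.toList = u :: U' := by
    cases h : Aᶜ.toList with
    | nil =>
      rw [h] at hlenU
      simp at hlenU
      omega
    | cons u U' => exact ⟨u, U', rfl⟩
  have hUnd : (u :: U').Nodup := by
    rw [← hU]
    exact Finset.nodup_toList _
  have hUm : ∀ w ∈ u :: U', w ∉ A := by
    intro w hw
    rw [← hU, Finset.mem_toList, Finset.mem_compl] at hw
    exact hw
  have hU'len : U'.length = m - 2 := by
    rw [hU, List.length_cons] at hlenU
    omega
  have huA : u ∉ A := hUm u List.mem_cons_self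
  have huU' : u ∉ U' := (List.nodup_cons.mp hUnd).1
  obtain ⟨q, hq1, hq2, hq3, hq4, hq5, hq6⟩ := zip_path hsymm (k := !k) (c := c)
    U' T.toList (by rw [Finset.length_toList, hTc, hU'len])
    (by
      apply List.Nodup.append (List.nodup_cons.mp hUnd).2 (Finset.nodup_toList _)
      intro w hw1 hw2
      rw [Finset.mem_toList] at hw2
      exact hUm w (List.mem_cons_of_mem _ hw1) (hTA w hw2).1)
    (by
      intro b hb z hz
      rw [Finset.mem_toList] at hz
      rw [hsymm]
      exact hcr z (hTA z hz).1 b (hUm b (List.mem_cons_of_mem _ hb)))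
  have hqm : ∀ w ∈ q, w ∈ U' ∨ (w ∈ A ∧ w ≠ a ∧ w ≠ b ∧ w ≠ a' ∧ w ≠ b') := by
    intro w hw
    rcases hq6 w hw with h | h
    · left
      exact h
    · right
      rw [Finset.mem_toList] at h
      exact hTA w h
  have hU'A : ∀ w ∈ U', w ∉ A := fun w hw => hUm w (List.mem_cons_of_mem _ hw)
  have haq : a ∉ q := by
    intro h
    rcases hqm a h with h | h
    · exact hU'A a h ha
    · exact h.2.1 rfl
  have hbq : b ∉ q := by
    intro h
    rcases hqm b h with h | h
    · exact hU'A b h hb
    · exact h.2.2.1 rfl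
  have ha'q : a' ∉ q := by
    intro h
    rcases hqm a' h with h | h
    · exact hU'A a' h ha'
    · exact h.2.2.2.1 rfl
  have hb'q : b' ∉ q := by
    intro h
    rcases hqm b' h with h | h
    · exact hU'A b' h hb'
    · exact h.2.2.2.2 rfl
  have huq : u ∉ q := by
    intro h
    rcases hqm u h with h | h
    · exact huU' h
    · exact huA h.1
  have hua : u ≠ a := fun h => huA (h ▸ ha)
  have hub : u ≠ b := fun h => huA (h ▸ hb)
  have hua' : u ≠ a' := fun h => huA (h ▸ ha')
  have hub' : u ≠ b' := fun h => huA (h ▸ hb')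
  refine ⟨a :: b :: (q ++ [u, a', b']), ?_, ?_, ?_⟩
  · have hlast : ([u, a', b'] : List V).Nodup := by
      simp only [List.nodup_cons, List.mem_cons, List.not_mem_nil, not_or, not_false_eq_true,
        List.nodup_nil, and_true]
      exact ⟨⟨hua', hub'⟩, hab''⟩
    have hap : (q ++ [u, a', b']).Nodup := by
      apply List.Nodup.append hq1 hlast
      intro w hw1 hw2
      simp only [List.mem_cons, List.not_mem_nil, or_false] at hw2
      rcases hw2 with rfl | rfl | rfl
      · exact huq hw1
      · exact ha'q hw1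
      · exact hb'q hw1
    simp only [List.nodup_cons, List.mem_cons, List.mem_append, List.not_mem_nil, or_false,
      not_or]
    exact ⟨⟨hab, haq, hua.symm, haa', hab'⟩, ⟨hbq, hub.symm, hba', hbb'⟩, hap⟩
  · simp only [List.length_cons, List.length_append, hq2, hU'len, List.length_nil]
    omega
  · rw [List.isChain_cons_cons, List.isChain_cons, List.isChain_append]
    refine ⟨h1, ?_, hq3, ?_, ?_⟩
    · intro w hw
      cases q with
      | nil =>
        simp at hw
        subst hw
        exact hcr b hb u huA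
      | cons w' q' =>
        simp at hw
        subst hw
        rw [List.head?_cons] at hq4
        have hw' : w' ∈ U'.head? := by
          rw [← hq4]
          rfl
        exact hcr b hb w' (hU'A w' (List.mem_of_mem_head? hw'))
    · rw [List.isChain_cons_cons, List.isChain_cons_cons]
      refine ⟨?_, h2, List.isChain_singleton _⟩
      rw [hsymm]
      exact hcr a' ha' u huA
    · intro w hw v hv
      simp at hv
      subst hv
      rw [hq5] at hw
      have hw' := List.mem_of_mem_getLast? hw
      rw [Finset.mem_toList] at hw'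
      exact hcr w (hTA w hw').1 u huA

theorem structO [Fintype V] [DecidableEq V] (c : V → V → Bool) (hsymm : ∀ u v, c u v = c v u)
    (m : ℕ) (hm : 2 ≤ m) (hV : Fintype.card V = 3 * m - 1) (k : Bool) (p : List V)
    (hp : IsCyc c k p) (hlen : p.length = 2 * m) (h1 : ¬ Pth c k (2 * m + 1))
    (h2 : ¬ Pth c (!k) (2 * m + 1)) : StrO c m := by
  have hA : p.toFinset.card = 2 * m := by
    rw [List.toFinset_card_of_nodup hp.1, hlen]
  have hAc : p.toFinsetᶜ.card = m - 1 := by
    rw [Finset.card_compl, hA, hV]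
    omega
  have hcr : ∀ a ∈ p.toFinset, ∀ b ∉ p.toFinset, c a b = !k := by
    intro a ha b hb
    rw [List.mem_toFinset] at ha hb
    by_contra hne
    have hk : c b a = k := by
      rw [hsymm]
      cases h : c a b <;> cases k <;> simp_all
    have := cyc_ext hp hb ha hk
    rw [hlen] at this
    exact h1 this
  refine ⟨k, p.toFinset, hA, hcr, ?_⟩
  intro a ha b hb a' ha' b' hb' hab hab' hc hc'
  by_contra hne
  have hs : ∀ {x y z : V}, x ∈ p.toFinset → y ∈ p.toFinset → z ∈ p.toFinset → x ≠ y → y ≠ z →
      x ≠ z → c x y = (!k) → c y z = (!k) → False := by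
    intro x y z hx hy hz hxy hyz hxz e1 e2
    exact h2 (so_share c hsymm m hm k p.toFinset hA hAc hcr hx hy hz hxy hyz hxz e1 e2)
  by_cases e1 : a = a'
  · subst e1
    have hbb : b ≠ b' := by
      intro h
      subst h
      exact hne rfl
    exact hs hb ha hb' hab.symm hab' hbb (by rw [hsymm]; exact hc) hc'
  by_cases e2 : a = b'
  · subst e2
    have hbb : b ≠ a' := by
      intro h
      subst h
      exact hne Sym2.eq_swap
    exact hs hb ha ha' hab.symm e1 hbb (by rw [hsymm]; exact hc) (by rw [hsymm]; exact hc')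
  by_cases e3 : b = a'
  · subst e3
    exact hs ha hb hb' hab hab' e2 hc hc'
  by_cases e4 : b = b'
  · subst e4
    exact hs ha hb ha' hab e3 e1 hc (by rw [hsymm]; exact hc')
  exact h2 (so_disj c hsymm m hm k p.toFinset hA hAc hcr ha hb ha' hb' hab e1 e2 e3 e4 hab' hc hc')

end Pool.Agent.LibFT6
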