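import Pool.Agent.LibFT6.C1
import Pool.Agent.LibFT6.C2

/-!
Row UP (cites C1, C2). `card V = 3 m - 1`, a closed path `p` on `2 m - 1` vertices in colour `k`, no path
on `2 m + 1` vertices in colour `k`: then there is a closed path on `2 m` vertices in some colour.
`W'` = the `m` vertices outside `p`. `S v` = `v` has a neighbour in colour `k` in `W'`.
If two cyclically consecutive vertices `a, b` of `p` (so that, after a rotation, `IsCyc c k (a :: b :: r)`
with `(a :: b :: r).Perm p`) are both in `S`: with the same neighbour `w`: `cyc_ins`; with different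
ones `w, w'`: `cyc_two`, against `h1`. So `odd_cycle_count` (`j = m - 1`): at most `m - 1` vertices of `p`
in `S`, hence at least `m` not in `S`; take a list `zs` of `m` of them: all edges to `W'` have colour
`!k`; `zip_path W'.toList zs` gives a path starting in `W'` and ending in `zs`, and it is closed.
-/

namespace Pool.Agent.LibFT6

variable {V : Type*}

private lemma up_aux : ∀ x k : Bool, x ≠ k → x = !k := by decide

theorem cyc_up [Fintype V] [DecidableEq V] (c : V → V → Bool) (hsymm : ∀ u v, c u v = c v u)
    (m : ℕ) (hm : 2 ≤ m) (hV : Fintype.card V = 3 * m - 1) (k : Bool) (p : List V)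
    (hp : IsCyc c k p) (hlen : p.length = 2 * m - 1) (h1 : ¬ Pth c k (2 * m + 1)) :
    ∃ (k' : Bool) (q : List V), IsCyc c k' q ∧ q.length = 2 * m := by
  classical
  by_contra hno
  push Not at hno
  set S : V → Prop := fun v => ∃ w, w ∉ p ∧ c w v = k with hS
  -- consecutive vertices
  have hcons : ∀ (a b : V) (r : List V), IsCyc c k (a :: b :: r) → (a :: b :: r).Perm p →
      ¬ (S a ∧ S b) := by
    intro a b r hc hperm hab
    obtain ⟨⟨w, hw, hwa⟩, ⟨w', hw', hwb⟩⟩ := hab
    have hl := hperm.length_eq
    rw [hlen] at hl
    simp only [List.length_cons] at hl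
    have h1w : w ∉ a :: b :: r := fun h => hw (hperm.subset h)
    have h1w' : w' ∉ a :: b :: r := fun h => hw' (hperm.subset h)
    by_cases hww : w = w'
    · subst hww
      exact hno k (a :: w :: b :: r) (cyc_ins hsymm hc h1w hwa hwb)
        (by simp only [List.length_cons]; omega)
    · apply h1
      have := cyc_two hsymm hc h1w h1w' hww hwa hwb
      rwa [show r.length + 4 = 2 * m + 1 by omega] at this
  have hchain : p.IsChain (fun u v => ¬ (S u ∧ S v)) := by
    rw [List.isChain_iff_forall_rel_of_append_cons_cons]
    intro a b l1 l2 hpe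
    have hc := hp
    rw [hpe] at hc
    have hc' := cyc_rot hc
    have e : (a :: b :: l2) ++ l1 = a :: b :: (l2 ++ l1) := by simp
    rw [e] at hc'
    apply hcons a b (l2 ++ l1) hc'
    rw [← e, hpe]
    exact List.perm_append_comm
  have hclose : ∀ z ∈ p.getLast?, ∀ a ∈ p.head?, ¬ (S z ∧ S a) := by
    intro z hz a ha
    obtain ⟨mid, hmid⟩ : ∃ mid, p = (a :: mid) ++ [z] := by
      cases p with
      | nil => simp at ha
      | cons a' t =>
        simp only [List.head?_cons, Option.mem_def, Option.some.injEq] at ha
        subst ha
        rcases List.eq_nil_or_concat t with h0 | ⟨t', z', h0⟩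
        · subst h0
          simp only [List.length_cons, List.length_nil] at hlen
          omega
        · rw [List.concat_eq_append] at h0
          subst h0
          rw [show a' :: (t' ++ [z']) = (a' :: t') ++ [z'] by simp] at hz
          simp only [List.getLast?_append, List.getLast?_singleton, Option.some_or,
            Option.mem_def, Option.some.injEq] at hz
          subst hz
          exact ⟨t', by simp⟩
    have hc := hp
    rw [hmid] at hc
    have hc' := cyc_rot hc
    have e : [z] ++ (a :: mid) = z :: a :: mid := by simp
    rw [e] at hc'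
    apply hcons z a mid hc'
    rw [← e, hmid]
    exact List.perm_append_comm
  have hcount := odd_cycle_count S p (m - 1) (by omega) hchain hclose
  -- the vertices which are not in `S`
  have hnot : m ≤ (p.filter (fun v => !decide (S v))).length := by
    have h2 := List.length_eq_length_filter_add (l := p) (fun v => decide (S v))
    omega
  set zs := (p.filter (fun v => !decide (S v))).take m with hzs
  have hzslen : zs.length = m := by
    rw [hzs, List.length_take]
    omega
  have hzsmem : ∀ z ∈ zs, z ∈ p ∧ ¬ S z := by
    intro z hz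
    have h2 := List.mem_of_mem_take hz
    rw [List.mem_filter] at h2
    refine ⟨h2.1, ?_⟩
    have h3 := h2.2
    simpa using h3
  have hpnd : p.Nodup := hp.1
  have hzsnd : zs.Nodup := (hpnd.filter _).take
  set bs := (Finset.univ \ p.toFinset).toList with hbs
  have hbslen : bs.length = m := by
    rw [hbs, Finset.length_toList, Finset.card_sdiff_of_subset (Finset.subset_univ _),
      List.toFinset_card_of_nodup hpnd, Finset.card_univ, hV, hlen]
    omega
  have hbsout : ∀ b ∈ bs, b ∉ p := by
    intro b hb
    rw [hbs, Finset.mem_toList, Finset.mem_sdiff, List.mem_toFinset] at hb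
    exact hb.2
  have hcr : ∀ b ∈ bs, ∀ z ∈ zs, c b z = !k := by
    intro b hb z hz
    have h2 := (hzsmem z hz).2
    have h3 : c b z ≠ k := fun h => h2 ⟨b, hbsout b hb, h⟩
    exact up_aux _ k h3
  obtain ⟨q, hqnd, hqlen, hqch, hqh, hql, -⟩ := zip_path hsymm bs zs (by rw [hbslen, hzslen])
    (by
      rw [List.nodup_append]
      refine ⟨Finset.nodup_toList _, hzsnd, ?_⟩
      intro b hb z hz hbz
      rw [hbz] at hb
      exact hbsout z hb (hzsmem z hz).1) hcr
  apply hno (!k) q ⟨hqnd, hqch, ?_⟩ (by rw [hqlen, hbslen])
  intro z hz a ha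
  rw [hql] at hz
  rw [hqh] at ha
  rw [hsymm]
  exact hcr a (List.mem_of_mem_head? ha) z (List.mem_of_mem_getLast? hz)

end Pool.Agent.LibFT6
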