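import Pool.Agent.LibFT6.SE
import Pool.Agent.LibFT6.SO
import Pool.Agent.LibFT6.UP
import Pool.Agent.LibFT6.EE
import Pool.Agent.LibFT6.EO
import Pool.Agent.LibFT6.KE
import Pool.Agent.LibFT6.KO
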