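import Pool.Agent.LibFT6.Defs

/-!
Row C1 (lists only): closed paths.

`cyc_rot`: the chain of `l2 ++ l1` by `List.isChain_append`, the link is the closing edge (trivial if
`l1` or `l2` is empty).
`cyc_rev`: `List.isChain_reverse`, symmetry. `cyc_ext`: `List.append_of_mem`, rotate so that `y` is first, put `x` in front.
`cyc_two`: the path `w :: a :: (r.reverse ++ [b, w'])` (`a` - last of `r` is the closing edge).
`cyc_ins`: insert `w` between `a` and `b`.
-/

namespace Pool.Agent.LibFT6

variable {V : Type*}

theorem cyc_rot {c : V → V → Bool} {k : Bool} {l1 l2 : List V} (hp : IsCyc c k (l1 ++ l2)) :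
    IsCyc c k (l2 ++ l1) := by
  obtain ⟨h1, h2, h3⟩ := hp
  rcases l1 with _ | ⟨a, l1⟩
  · simpa [IsCyc] using And.intro h1 (And.intro h2 h3)
  rcases l2 with _ | ⟨b, l2⟩
  · simpa [IsCyc] using And.intro h1 (And.intro h2 h3)
  rw [List.isChain_append] at h2
  refine ⟨List.nodup_append_comm.1 h1, ?_, ?_⟩
  · rw [List.isChain_append]
    refine ⟨h2.2.1, h2.1, ?_⟩
    intro x hx y hy
    apply h3 x _ y
    · simpa using hy
    · rw [List.getLast?_append_of_ne_nil _ (List.cons_ne_nil _ _)]
      exact hx
  · intro x hx y hy
    rw [List.getLast?_append_of_ne_nil _ (List.cons_ne_nil _ _)] at hx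
    apply h2.2.2 x hx y
    simpa using hy

theorem cyc_rev {c : V → V → Bool} (hsymm : ∀ u v, c u v = c v u) {k : Bool} {p : List V}
    (hp : IsCyc c k p) : IsCyc c k p.reverse := by
  obtain ⟨h1, h2, h3⟩ := hp
  refine ⟨List.nodup_reverse.2 h1, ?_, ?_⟩
  · rw [List.isChain_reverse]
    refine h2.imp ?_
    intro u v huv
    rw [hsymm]
    exact huv
  · intro z hz a ha
    rw [List.getLast?_reverse] at hz
    rw [List.head?_reverse] at ha
    rw [hsymm]
    exact h3 a ha z hz

/-- a vertex outside joined to a vertex of the cycle -/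
theorem cyc_ext {c : V → V → Bool} {k : Bool} {p : List V} (hp : IsCyc c k p) {x y : V}
    (hx : x ∉ p) (hy : y ∈ p) (hxy : c x y = k) : Pth c k (p.length + 1) := by
  obtain ⟨s, t, rfl⟩ := List.append_of_mem hy
  have h := cyc_rot hp
  obtain ⟨h1, h2, -⟩ := h
  refine ⟨x :: (y :: t ++ s), ?_, ?_, ?_⟩
  · rw [List.nodup_cons]
    refine ⟨?_, h1⟩
    intro hx'
    apply hx
    simp only [List.mem_append, List.mem_cons] at hx' ⊢
    tauto
  · simp only [List.length_cons, List.length_append, List.cons_append]
    omega
  · rw [List.cons_append, List.isChain_cons_cons]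
    exact ⟨hxy, h2⟩

/-- two vertices outside joined to consecutive vertices of the cycle -/
theorem cyc_two {c : V → V → Bool} (hsymm : ∀ u v, c u v = c v u) {k : Bool} {a b : V}
    {r : List V} (hp : IsCyc c k (a :: b :: r)) {w w' : V} (hw : w ∉ a :: b :: r)
    (hw' : w' ∉ a :: b :: r) (hww : w ≠ w') (h1 : c w a = k) (h2 : c w' b = k) :
    Pth c k (r.length + 4) := by
  obtain ⟨hn, hc, hl⟩ := hp
  rw [List.isChain_cons_cons] at hc
  have hrev : List.IsChain (fun u v => c u v = k) (b :: r).reverse := by
    rw [List.isChain_reverse]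
    refine hc.2.imp ?_
    intro u v huv
    rw [hsymm]
    exact huv
  have hw'r : w' ∉ (b :: r).reverse := by
    intro h
    exact hw' (List.mem_cons_of_mem _ (List.mem_reverse.1 h))
  refine ⟨w :: a :: ((b :: r).reverse ++ [w']), ?_, ?_, ?_⟩
  · rw [List.nodup_cons, List.nodup_cons] at *
    refine ⟨?_, ?_, ?_⟩
    · intro h
      rw [List.mem_cons, List.mem_append, List.mem_reverse, List.mem_singleton] at h
      rcases h with h | h | h
      · exact hw (h ▸ List.mem_cons_self)
      · exact hw (List.mem_cons_of_mem _ h)
      · exact hww h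
    · intro h
      rw [List.mem_append, List.mem_reverse, List.mem_singleton] at h
      rcases h with h | h
      · exact hn.1 h
      · exact hw' (h ▸ List.mem_cons_self)
    · rw [List.nodup_append]
      refine ⟨List.nodup_reverse.2 (List.nodup_cons.2 hn.2), List.nodup_singleton _, ?_⟩
      intro x hx y hy
      rw [List.mem_singleton] at hy
      subst hy
      intro hxy
      subst hxy
      exact hw'r hx
  · simp only [List.length_cons, List.length_append, List.length_reverse, List.length_nil]
  · rw [List.isChain_cons_cons]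
    refine ⟨h1, ?_⟩
    rw [List.isChain_cons]
    refine ⟨?_, ?_⟩
    · intro z hz
      have hz' : z ∈ (b :: r).reverse.head? := by
        rw [List.head?_append_of_ne_nil _ (by simp)] at hz
        exact hz
      rw [List.head?_reverse] at hz'
      have h3 : z ∈ (a :: b :: r).getLast? := by
        rw [List.getLast?_cons_cons]
        exact hz'
      have h4 := hl z h3 a (by simp)
      rw [hsymm]
      exact h4
    · rw [List.isChain_append]
      refine ⟨hrev, List.isChain_singleton _, ?_⟩
      intro x hx y hy
      rw [List.getLast?_reverse] at hx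
      simp only [List.head?_cons, Option.mem_def, Option.some.injEq] at hx hy
      subst hx
      subst hy
      rw [hsymm]
      exact h2

/-- insert a vertex between two consecutive vertices of the cycle -/
theorem cyc_ins {c : V → V → Bool} (hsymm : ∀ u v, c u v = c v u) {k : Bool} {a b : V}
    {r : List V} (hp : IsCyc c k (a :: b :: r)) {w : V} (hw : w ∉ a :: b :: r)
    (h1 : c w a = k) (h2 : c w b = k) : IsCyc c k (a :: w :: b :: r) := by
  obtain ⟨hn, hc, hl⟩ := hp
  rw [List.isChain_cons_cons] at hc
  refine ⟨?_, ?_, ?_⟩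
  · rw [List.nodup_cons, List.nodup_cons]
    rw [List.nodup_cons] at hn
    refine ⟨?_, ?_, hn.2⟩
    · intro h
      rw [List.mem_cons] at h
      rcases h with h | h
      · exact hw (h ▸ List.mem_cons_self)
      · exact hn.1 h
    · intro h
      exact hw (List.mem_cons_of_mem _ h)
  · rw [List.isChain_cons_cons, List.isChain_cons_cons]
    exact ⟨by rw [hsymm]; exact h1, h2, hc.2⟩
  · intro z hz x hx
    rw [List.getLast?_cons_cons, List.getLast?_cons_cons] at hz
    apply hl z _ x hx
    rw [List.getLast?_cons_cons]
    exact hz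

end Pool.Agent.LibFT6
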