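import Mathlib
import Pool.Agent.LibPathRamsey.Basic

/-!
Definitions for the exact value of the path number for four colours and two of them.
A 2-colouring of the complete graph on `V` is a symmetric `c : V → V → Bool` (the diagonal is
irrelevant). Paths are lists without repetition whose consecutive vertices are joined in colour `k`.
-/

namespace Pool.Agent.LibFT6

variable {V : Type*}

/-- there is a path in colour `k` on `l` vertices -/
def Pth (c : V → V → Bool) (k : Bool) (l : ℕ) : Prop :=
  ∃ p : List V, p.Nodup ∧ p.length = l ∧ p.IsChain (fun u v => c u v = k)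

/-- the list `p` is a closed path in colour `k` -/
def IsCyc (c : V → V → Bool) (k : Bool) (p : List V) : Prop :=
  p.Nodup ∧ p.IsChain (fun u v => c u v = k) ∧ ∀ z ∈ p.getLast?, ∀ a ∈ p.head?, c z a = k

/-- structure of the critical colourings for paths on `2 m` vertices -/
def StrE (c : V → V → Bool) (m : ℕ) : Prop :=
  ∃ (k : Bool) (A : Finset V), A.card = 2 * m - 1 ∧ (∀ a ∈ A, ∀ b ∉ A, c a b = !k) ∧
    (∀ a ∈ A, ∀ b ∈ A, a ≠ b → c a b = k)

/-- structure of the critical colourings for paths on `2 m + 1` vertices -/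
def StrO (c : V → V → Bool) (m : ℕ) : Prop :=
  ∃ (k : Bool) (A : Finset V), A.card = 2 * m ∧ (∀ a ∈ A, ∀ b ∉ A, c a b = !k) ∧
    (∀ a ∈ A, ∀ b ∈ A, ∀ a' ∈ A, ∀ b' ∈ A, a ≠ b → a' ≠ b' → c a b = (!k) → c a' b' = (!k) →
      s(a, b) = s(a', b'))

end Pool.Agent.LibFT6
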