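import Mathlib
import Pool.Agent.LibPathRamsey.Basic

namespace Pool.Agent.LibFT6

/-- Every `t`-colouring of the edges of the complete graph on `n` vertices contains a path on
`l` vertices whose edges use at most `s` colours. A path on `l` vertices is a list of `l`
distinct vertices; its edges join consecutive vertices. -/
def Arrow (t s l n : ℕ) : Prop :=
  ∀ c : Sym2 (Fin n) → Fin t, ∃ S : Finset (Fin t), S.card ≤ s ∧
    ∃ p : List (Fin n), p.Nodup ∧ p.length = l ∧ p.IsChain (fun u v => c s(u, v) ∈ S)

lemma arrow_of_le (l n : ℕ) (hl : 2 ≤ l) (hn : l + l / 2 - 1 ≤ n) : Arrow 4 2 l n := by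
  intro c
  obtain ⟨p, h1, h2, h3⟩ := Pool.Agent.LibPathRamsey.two_colour
    (fun u v : Fin n => c s(u, v) ∈ ({0, 1} : Finset (Fin 4)))
    (by
      intro u v h
      rw [Sym2.eq_swap]
      exact h) l hl (by simpa using hn)
  rcases h3 with h3 | h3
  · exact ⟨{0, 1}, by decide, p, h1, h2, h3⟩
  · refine ⟨{2, 3}, by decide, p, h1, h2, ?_⟩
    apply h3.imp
    intro u v h
    generalize c s(u, v) = a at h ⊢
    revert h
    revert a
    decide

/-- The colour of an edge in terms of the classes of its ends. -/
def tab (i j : Fin 4) : Fin 4 :=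
  if i = j then 3 else if i = 3 then j else if j = 3 then i else
    if i ≠ 0 ∧ j ≠ 0 then 0 else if i ≠ 1 ∧ j ≠ 1 then 1 else 2

lemma tab_comm : ∀ i j, tab i j = tab j i := by decide

/-- The class of a vertex. -/
def cls (x : ℕ) {n : ℕ} (v : Fin n) : Fin 4 :=
  if v.val < x then 0 else if v.val < 2 * x then 1 else if v.val < 3 * x then 2 else 3

/-- The colouring. -/
def colr (x n : ℕ) : Sym2 (Fin n) → Fin 4 :=
  Sym2.lift ⟨fun u v => tab (cls x u) (cls x v), fun _ _ => tab_comm _ _⟩

lemma colr_mk (x n : ℕ) (u v : Fin n) : colr x n s(u, v) = tab (cls x u) (cls x v) := rfl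

/-- The number of vertices in a class. -/
def cnt (x n : ℕ) (i : Fin 4) : ℕ := (Finset.univ.filter (fun v : Fin n => cls x v = i)).card

lemma cnt_small (x n : ℕ) (i : Fin 4) (hi : i ≠ 3) : cnt x n i ≤ x := by
  unfold cnt
  have h1 : (Finset.univ.filter (fun v : Fin n => cls x v = i)).card ≤
      (Finset.Ico (i.val * x) ((i.val + 1) * x)).card := by
    apply Finset.card_le_card_of_injOn (fun v => v.val)
    · intro v hv
      simp only [Finset.coe_filter, Finset.mem_univ, true_and, Set.mem_ofPred_eq] at hv
      rw [Finset.mem_coe, Finset.mem_Ico]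
      unfold cls at hv
      by_cases h1 : v.val < x
      · rw [if_pos h1] at hv
        subst hv
        show 0 * x ≤ v.val ∧ v.val < (0 + 1) * x
        omega
      · rw [if_neg h1] at hv
        by_cases h2 : v.val < 2 * x
        · rw [if_pos h2] at hv
          subst hv
          show 1 * x ≤ v.val ∧ v.val < (1 + 1) * x
          omega
        · rw [if_neg h2] at hv
          by_cases h3 : v.val < 3 * x
          · rw [if_pos h3] at hv
            subst hv
            show 2 * x ≤ v.val ∧ v.val < (2 + 1) * x
            omega
          · rw [if_neg h3] at hv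
            exact absurd hv.symm hi
    · intro a _ b _ h
      exact Fin.ext h
  refine h1.trans ?_
  rw [Nat.card_Ico]
  have : (i.val + 1) * x = i.val * x + x := by ring
  omega

lemma cnt_big (x n : ℕ) : cnt x n 3 ≤ n - 3 * x := by
  unfold cnt
  have h1 : (Finset.univ.filter (fun v : Fin n => cls x v = 3)).card ≤
      (Finset.Ico (3 * x) n).card := by
    apply Finset.card_le_card_of_injOn (fun v => v.val)
    · intro v hv
      simp only [Finset.coe_filter, Finset.mem_univ, true_and, Set.mem_ofPred_eq] at hv
      rw [Finset.mem_coe, Finset.mem_Ico]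
      refine ⟨?_, v.2⟩
      unfold cls at hv
      split_ifs at hv with h1 h2 h3 <;> simp_all
    · intro a _ b _ h
      exact Fin.ext h
  refine h1.trans ?_
  rw [Nat.card_Ico]

/-- The classes of a set of class labels. -/
def wt (x n : ℕ) (X : Finset (Fin 4)) : ℕ := (Finset.univ.filter (fun v : Fin n => cls x v ∈ X)).card

lemma wt_le (x n : ℕ) (X : Finset (Fin 4)) : wt x n X ≤ ∑ i ∈ X, cnt x n i := by
  unfold wt cnt
  have : (Finset.univ.filter (fun v : Fin n => cls x v ∈ X)) ⊆
      X.biUnion (fun i => Finset.univ.filter (fun v : Fin n => cls x v = i)) := by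
    intro v hv
    rw [Finset.mem_filter] at hv
    rw [Finset.mem_biUnion]
    exact ⟨cls x v, hv.2, by simp⟩
  exact (Finset.card_le_card this).trans Finset.card_biUnion_le

/-- The shape of the union of two colour classes. -/
lemma shape : ∀ T : Finset (Fin 4), T.card = 2 →
    (∃ i : Fin 4, i ≠ 3 ∧ ∀ a b, tab a b ∈ T → (a ∈ ({i, 3} : Finset (Fin 4)) ↔ b ∈ ({i, 3} : Finset (Fin 4)))) ∨
    (∃ i j : Fin 4, i ≠ 3 ∧ j ≠ 3 ∧ i ≠ j ∧
      ∀ a b, tab a b ∈ T → (a ∈ ({i, j} : Finset (Fin 4)) ↔ ¬ b ∈ ({i, j} : Finset (Fin 4)))) := by
  decide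

lemma closed_list {V : Type*} (P : V → Prop) : ∀ p : List V,
    p.IsChain (fun u v => P u ↔ P v) → (∀ v ∈ p, P v) ∨ (∀ v ∈ p, ¬ P v) := by
  intro p
  induction p with
  | nil => intro _; left; simp
  | cons a p ih =>
    intro h
    cases p with
    | nil =>
      by_cases ha : P a
      · left; simpa using ha
      · right; simpa using ha
    | cons b p =>
      rw [List.isChain_cons_cons] at h
      rcases ih h.2 with h1 | h1
      · left
        intro v hv
        rcases List.mem_cons.mp hv with rfl | hv
        · exact h.1.mpr (h1 b (by simp))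
        · exact h1 v hv
      · right
        intro v hv
        rcases List.mem_cons.mp hv with rfl | hv
        · exact fun hv' => h1 b (by simp) (h.1.mp hv')
        · exact h1 v hv

lemma alt_list {V : Type*} (P : V → Prop) [DecidablePred P] : ∀ p : List V,
    p.IsChain (fun u v => P u ↔ ¬ P v) → p.length ≤ 2 * (p.filter P).length + 1 ∧
      (∀ a ∈ p.head?, P a → p.length ≤ 2 * (p.filter P).length) := by
  intro p
  induction p with
  | nil => intro _; simp
  | cons a p ih =>
    intro h
    cases p with
    | nil =>
      by_cases ha : P a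
      · simp [ha]
      · simp [ha]
    | cons b p =>
      rw [List.isChain_cons_cons] at h
      obtain ⟨h1, h2⟩ := ih h.2
      by_cases ha : P a
      · have e : ((a :: b :: p).filter P).length = ((b :: p).filter P).length + 1 := by
          rw [List.filter_cons_of_pos (by simpa using ha), List.length_cons]
        rw [e]
        simp only [List.length_cons] at h1 h2 ⊢
        constructor
        · omega
        · intro _ _ _
          omega
      · have hb : P b := by
          by_contra hb
          exact ha (h.1.mpr hb)
        have h3 := h2 b (by simp) hb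
        have e : ((a :: b :: p).filter P).length = ((b :: p).filter P).length := by
          rw [List.filter_cons_of_neg (by simpa using ha)]
        rw [e]
        simp only [List.length_cons] at h3 ⊢
        constructor
        · omega
        · intro c hc hPc
          simp only [List.head?_cons, Option.mem_def, Option.some.injEq] at hc
          subst hc
          exact absurd hPc ha

lemma length_le_card {n : ℕ} (P : Fin n → Prop) [DecidablePred P] (p : List (Fin n))
    (hp : p.Nodup) : (p.filter P).length ≤ (Finset.univ.filter P).card := by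
  have h1 : (p.filter P).Nodup := hp.filter _
  rw [← List.toFinset_card_of_nodup h1]
  apply Finset.card_le_card
  intro v hv
  rw [List.mem_toFinset, List.mem_filter] at hv
  rw [Finset.mem_filter]
  exact ⟨Finset.mem_univ _, by simpa using hv.2⟩

lemma not_arrow (l n : ℕ) (hl : 2 ≤ l) (hn : n < l + 2 * ((l - 2) / 4)) : ¬ Arrow 4 2 l n := by
  intro h
  set x := (l - 2) / 4 with hx
  obtain ⟨S, hS, p, hp, hlen, hch⟩ := h (colr x n)
  obtain ⟨T, hST, hT⟩ := Finset.exists_superset_card_eq hS (by simp)
  have hch' : p.IsChain (fun u v => tab (cls x u) (cls x v) ∈ T) := by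
    apply hch.imp
    intro u v huv
    exact hST huv
  rcases shape T hT with ⟨i, hi, hT'⟩ | ⟨i, j, hi, hj, hij, hT'⟩
  · have h1 : p.IsChain (fun u v => cls x u ∈ ({i, 3} : Finset (Fin 4)) ↔
        cls x v ∈ ({i, 3} : Finset (Fin 4))) := by
      apply hch'.imp
      intro u v huv
      exact hT' _ _ huv
    rcases closed_list _ p h1 with h2 | h2
    · have h3 : p.filter (fun v => cls x v ∈ ({i, 3} : Finset (Fin 4))) = p := by
        rw [List.filter_eq_self]
        intro v hv
        simpa using h2 v hv
      have h4 := length_le_card (fun v : Fin n => cls x v ∈ ({i, 3} : Finset (Fin 4))) p hp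
      rw [h3] at h4
      have h5 : wt x n {i, 3} ≤ cnt x n i + cnt x n 3 := by
        refine (wt_le x n {i, 3}).trans ?_
        rw [Finset.sum_pair hi]
      have h6 := cnt_small x n i hi
      have h7 := cnt_big x n
      have h8 : wt x n {i, 3} = (Finset.univ.filter
        (fun v : Fin n => cls x v ∈ ({i, 3} : Finset (Fin 4)))).card := rfl
      omega
    · -- the other two classes
      have h3 : p.filter (fun v => cls x v ∈ (({i, 3} : Finset (Fin 4))ᶜ)) = p := by
        rw [List.filter_eq_self]
        intro v hv
        have := h2 v hv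
        simpa using this
      have h4 := length_le_card (fun v : Fin n => cls x v ∈ (({i, 3} : Finset (Fin 4))ᶜ)) p hp
      rw [h3] at h4
      have h5 : wt x n (({i, 3} : Finset (Fin 4))ᶜ) ≤ 2 * x := by
        refine (wt_le x n _).trans ?_
        have h6 : ∀ j ∈ (({i, 3} : Finset (Fin 4))ᶜ), cnt x n j ≤ x := by
          intro j hj
          apply cnt_small
          intro h
          subst h
          simp at hj
        refine (Finset.sum_le_card_nsmul _ _ _ h6).trans ?_
        have h7 : (({i, 3} : Finset (Fin 4))ᶜ).card = 2 := by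
          rw [Finset.card_compl, Finset.card_pair hi]
          simp
        rw [h7, smul_eq_mul]
      have h8 : wt x n (({i, 3} : Finset (Fin 4))ᶜ) = (Finset.univ.filter
        (fun v : Fin n => cls x v ∈ (({i, 3} : Finset (Fin 4))ᶜ))).card := rfl
      omega
  · have h1 : p.IsChain (fun u v => cls x u ∈ ({i, j} : Finset (Fin 4)) ↔
        ¬ cls x v ∈ ({i, j} : Finset (Fin 4))) := by
      apply hch'.imp
      intro u v huv
      exact hT' _ _ huv
    have h2 := (alt_list (fun v => cls x v ∈ ({i, j} : Finset (Fin 4))) p h1).1
    have h4 := length_le_card (fun v : Fin n => cls x v ∈ ({i, j} : Finset (Fin 4))) p hp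
    have h5 : wt x n {i, j} ≤ cnt x n i + cnt x n j := by
      refine (wt_le x n {i, j}).trans ?_
      rw [Finset.sum_pair hij]
    have h6 := cnt_small x n i hi
    have h7 := cnt_small x n j hj
    have h8 : wt x n {i, j} = (Finset.univ.filter
      (fun v : Fin n => cls x v ∈ ({i, j} : Finset (Fin 4)))).card := rfl
    omega

end Pool.Agent.LibFT6
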