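import Pool.Agent.LibFT6.All
import Pool.Agent.LibFT6.Low

/-!
Assembly: the upper bounds for `l = 2 m` and `l = 2 m + 1`, `m` even.
-/

namespace Pool.Agent.LibFT6

/-- the three splittings of four colours into two pairs -/
def spl (i : Fin 3) (x : Fin 4) : Bool := decide (x = 0 ∨ x = i.succ)

theorem spl_par : ∀ x : Fin 4, xor (xor (spl 0 x) (spl 1 x)) (spl 2 x) = true := by decide

theorem spl_set : ∀ (i : Fin 3) (k : Bool), (Finset.univ.filter (fun x => spl i x = k)).card ≤ 2 := by
  decide

theorem pth_arrow {n l : ℕ} (c : Sym2 (Fin n) → Fin 4) (i : Fin 3) (k : Bool)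
    (h : Pth (fun u v => spl i (c s(u, v))) k l) :
    ∃ S : Finset (Fin 4), S.card ≤ 2 ∧
      ∃ p : List (Fin n), p.Nodup ∧ p.length = l ∧ p.IsChain (fun u v => c s(u, v) ∈ S) := by
  obtain ⟨p, hp, hl, hc⟩ := h
  refine ⟨Finset.univ.filter (fun x => spl i x = k), spl_set i k, p, hp, hl, ?_⟩
  apply hc.imp
  intro u v huv
  rw [Finset.mem_filter]
  exact ⟨Finset.mem_univ _, huv⟩

theorem classE {V : Type*} [Fintype V] [DecidableEq V] (c : V → V → Bool)
    (hsymm : ∀ u v, c u v = c v u) (m : ℕ) (hm : 2 ≤ m) (hV : Fintype.card V = 3 * m - 2)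
    (hno : ∀ k : Bool, ¬ Pth c k (2 * m)) : StrE c m := by
  obtain ⟨k, p, hp, hlen⟩ := existsE c hsymm m hm hV hno
  exact structE c hsymm m hm hV k p hp hlen (hno k) (hno (!k))

theorem classO {V : Type*} [Fintype V] [DecidableEq V] (c : V → V → Bool)
    (hsymm : ∀ u v, c u v = c v u) (m : ℕ) (hm : 2 ≤ m) (hV : Fintype.card V = 3 * m - 1)
    (hno : ∀ k : Bool, ¬ Pth c k (2 * m + 1)) : StrO c m := by
  obtain ⟨k, p, hp, hlen | hlen⟩ := existsO c hsymm m hm hV hno
  · obtain ⟨k', q, hq, hq'⟩ := cyc_up c hsymm m hm hV k p hp hlen (hno k)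
    exact structO c hsymm m hm hV k' q hq hq' (hno k') (hno (!k'))
  · exact structO c hsymm m hm hV k p hp hlen (hno k) (hno (!k))

theorem arrow_even (m : ℕ) (hm : 2 ≤ m) (hme : Even m) : Arrow 4 2 (2 * m) (3 * m - 2) := by
  intro c
  by_contra hcon
  apply four_even (V := Fin (3 * m - 2)) m hm hme (by simp) (fun i u v => spl i (c s(u, v)))
  · intro i u v
    rw [Sym2.eq_swap]
  · intro u v _
    exact spl_par _
  · intro i
    apply classE _ _ m hm (by simp)
    · intro k h
      exact hcon (pth_arrow c i k h)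
    · intro u v
      rw [Sym2.eq_swap]

theorem arrow_odd (m : ℕ) (hm : 2 ≤ m) (hme : Even m) : Arrow 4 2 (2 * m + 1) (3 * m - 1) := by
  intro c
  by_contra hcon
  apply four_odd (V := Fin (3 * m - 1)) m hm hme (by simp) (fun i u v => spl i (c s(u, v)))
  · intro i u v
    rw [Sym2.eq_swap]
  · intro u v _
    exact spl_par _
  · intro i
    apply classO _ _ m hm (by simp)
    · intro k h
      exact hcon (pth_arrow c i k h)
    · intro u v
      rw [Sym2.eq_swap]

theorem final (l : ℕ) (hl : 2 ≤ l) : IsLeast {n : ℕ | Arrow 4 2 l n} (l + 2 * ((l - 2) / 4)) := by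
  constructor
  · show Arrow 4 2 l (l + 2 * ((l - 2) / 4))
    by_cases h : l % 4 = 2 ∨ l % 4 = 3
    · exact arrow_of_le l _ hl (by omega)
    · obtain ⟨m, hm | hm⟩ := Nat.even_or_odd' l
      · have hme : Even m := by
          rw [Nat.even_iff]
          omega
        have e : l + 2 * ((l - 2) / 4) = 3 * m - 2 := by
          rw [Nat.even_iff] at hme
          omega
        rw [e, hm]
        exact arrow_even m (by rw [Nat.even_iff] at hme; omega) hme
      · have hme : Even m := by
          rw [Nat.even_iff]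
          omega
        have e : l + 2 * ((l - 2) / 4) = 3 * m - 1 := by
          rw [Nat.even_iff] at hme
          omega
        rw [e, hm]
        exact arrow_odd m (by rw [Nat.even_iff] at hme; omega) hme
  · intro n hn
    by_contra hcon
    exact not_arrow l n hl (by omega) hn

end Pool.Agent.LibFT6
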