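import Pool.Agent.LibFT6.C1
import Pool.Agent.LibFT6.C2

/-!
Row SE (cites C1, C2). A closed path `p` on `2 m - 1` vertices in colour `k` gives the structure:
`A = p.toFinset`. Outside there are `m - 1` vertices, `U`.
Cross edges: `cyc_ext` and `h1`. Inner edges: if `c a b = !k` with `a ≠ b` in `A`, take
`zs` = `m - 1` elements of `A` without `a`, `b` (there are `2 m - 3 ≥ m - 1`), `bs = U.toList`:
`zip_path` (colour `!k`) gives `q` starting in `U`; `a :: b :: q` is a path in colour `!k` on `2 m`
vertices, against `h2`.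
-/

namespace Pool.Agent.LibFT6

variable {V : Type*}

/-- the path `a, b, q` -/
private theorem se_path [Fintype V] [DecidableEq V] (c : V → V → Bool)
    (hsymm : ∀ u v, c u v = c v u) (m : ℕ) (hm : 2 ≤ m) (k : Bool) (A : Finset V)
    (hA : A.card = 2 * m - 1) (hAc : Aᶜ.card = m - 1) (hcr : ∀ a ∈ A, ∀ b ∉ A, c a b = !k)
    {x y : V} (hx : x ∈ A) (hy : y ∈ A) (hxy : x ≠ y)
    (h1 : c x y = !k) : Pth c (!k) (2 * m) := by
  have hsub : ({x, y} : Finset V) ⊆ A := by
    intro w hw
    simp only [Finset.mem_insert, Finset.mem_singleton] at hw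
    rcases hw with rfl | rfl <;> assumption
  have hc3 : ({x, y} : Finset V).card = 2 := by
    rw [Finset.card_insert_of_notMem, Finset.card_singleton]
    simp [hxy]
  have hcard : (A \ {x, y}).card = 2 * m - 3 := by
    rw [Finset.card_sdiff_of_subset hsub, hA, hc3]
    omega
  obtain ⟨T, hT, hTc⟩ := Finset.exists_subset_card_eq (s := A \ {x, y}) (n := m - 1)
    (by omega)
  have hTA : ∀ t ∈ T, t ∈ A ∧ t ≠ x ∧ t ≠ y := by
    intro t ht
    have := hT ht
    simp only [Finset.mem_sdiff, Finset.mem_insert, Finset.mem_singleton, not_or] at this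
    exact ⟨this.1, this.2.1, this.2.2⟩
  obtain ⟨q, hq1, hq2, hq3, hq4, -, hq6⟩ := zip_path hsymm (k := !k) (c := c)
    Aᶜ.toList T.toList (by rw [Finset.length_toList, Finset.length_toList, hAc, hTc])
    (by
      apply List.Nodup.append (Finset.nodup_toList _) (Finset.nodup_toList _)
      intro w hw1 hw2
      rw [Finset.mem_toList, Finset.mem_compl] at hw1
      rw [Finset.mem_toList] at hw2
      exact hw1 (hTA w hw2).1)
    (by
      intro b hb z hz
      rw [Finset.mem_toList, Finset.mem_compl] at hb
      rw [Finset.mem_toList] at hz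
      rw [hsymm]
      exact hcr z (hTA z hz).1 b hb)
  have hqm : ∀ w ∈ q, w ∉ A ∨ (w ∈ A ∧ w ≠ x ∧ w ≠ y) := by
    intro w hw
    rcases hq6 w hw with h | h
    · left
      rwa [Finset.mem_toList, Finset.mem_compl] at h
    · right
      rw [Finset.mem_toList] at h
      exact hTA w h
  refine ⟨x :: y :: q, ?_, ?_, ?_⟩
  · have hxq : x ∉ q := by
      intro h
      rcases hqm x h with h | h
      · exact h hx
      · exact h.2.1 rfl
    have hyq : y ∉ q := by
      intro h
      rcases hqm y h with h | h
      · exact h hy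
      · exact h.2.2 rfl
    simp only [List.nodup_cons, List.mem_cons, not_or]
    exact ⟨⟨hxy, hxq⟩, hyq, hq1⟩
  · simp only [List.length_cons, hq2, Finset.length_toList, hAc]
    omega
  · rw [List.isChain_cons_cons, List.isChain_cons]
    refine ⟨h1, ?_, hq3⟩
    intro w hw
    rw [hq4] at hw
    have hw' := List.mem_of_mem_head? hw
    rw [Finset.mem_toList, Finset.mem_compl] at hw'
    exact hcr y hy w hw'

theorem structE [Fintype V] [DecidableEq V] (c : V → V → Bool) (hsymm : ∀ u v, c u v = c v u)
    (m : ℕ) (hm : 2 ≤ m) (hV : Fintype.card V = 3 * m - 2) (k : Bool) (p : List V)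
    (hp : IsCyc c k p) (hlen : p.length = 2 * m - 1) (h1 : ¬ Pth c k (2 * m))
    (h2 : ¬ Pth c (!k) (2 * m)) : StrE c m := by
  have hA : p.toFinset.card = 2 * m - 1 := by
    rw [List.toFinset_card_of_nodup hp.1, hlen]
  have hAc : p.toFinsetᶜ.card = m - 1 := by
    rw [Finset.card_compl, hA, hV]
    omega
  have hcr : ∀ a ∈ p.toFinset, ∀ b ∉ p.toFinset, c a b = !k := by
    intro a ha b hb
    rw [List.mem_toFinset] at ha hb
    by_contra hne
    have hk : c b a = k := by
      rw [hsymm]
      cases h : c a b <;> cases k <;> simp_all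
    have := cyc_ext hp hb ha hk
    rw [hlen] at this
    apply h1
    rwa [show 2 * m - 1 + 1 = 2 * m by omega] at this
  refine ⟨k, p.toFinset, hA, hcr, ?_⟩
  intro a ha b hb hab
  by_contra hne
  have hc : c a b = !k := by
    cases h : c a b <;> cases k <;> simp_all
  exact h2 (se_path c hsymm m hm k p.toFinset hA hAc hcr ha hb hab hc)

end Pool.Agent.LibFT6
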