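import Pool.Agent.LibFT6.C2

/-!
Row ST (cites LibPathRamsey and C2.half_count). `p` is a path in colour `k` which is not extendable
(`hmax`), `b` is outside. The proofs of `st_first`, `st_last`, `st_mid`, `st_alt` are inside the proof of
`LibPathRamsey.blue_path` (facts `hfirst`, `hlast`, `hmid`, `hmain`, relation `Rd u v := c u v = k`; the
other relation is `c u v = !k`): copy them.
`st_alt`: `alt_exists` with `y = a` and the pairs of `R.take (2 * (bs.length - 1))` (`exists_flat`,
`flat_mem_split`), then `mem_of_mem_take`.
`st_few`: `p = a :: (R ++ [z])` (for `p.length ≤ 1` the set `D` is empty by `st_first`): `a, z ∉ D` by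
`st_first`, `st_last`; no two consecutive elements of `R` in `D` by `st_mid`, so `half_count` with
`S v = (v ∈ D)` on `R` gives `D.card ≤ (R.length + 1) / 2` (`D ⊆ (R.filter ..).toFinset`).
-/

namespace Pool.Agent.LibFT6

open Pool.Agent.LibPathRamsey

variable {V : Type*}

private lemma st_aux1 : ∀ x k : Bool, x = k → x = (!k) → False := by decide

private lemma st_aux2 : ∀ x y k : Bool, ¬ (x = k ∧ y = k) → (x = !k) ∨ (y = !k) := by decide

theorem st_first {c : V → V → Bool} {k : Bool} {p : List V} {a : V} {R : List V}
    (hpe : p = a :: R) (hp : p.Nodup) (hch : p.IsChain (fun u v => c u v = k))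
    (hmax : ¬ Pth c k (p.length + 1)) {b : V} (hb : b ∉ p) : c b a = !k := by
  subst hpe
  have hne : c b a ≠ k := by
    intro h
    apply hmax
    refine ⟨b :: a :: R, ?_, by simp, ?_⟩
    · rw [List.nodup_cons]
      exact ⟨hb, hp⟩
    · rw [List.isChain_cons_cons]
      exact ⟨h, hch⟩
  revert hne
  cases c b a <;> cases k <;> simp

theorem st_last {c : V → V → Bool} (hsymm : ∀ u v, c u v = c v u) {k : Bool} {p : List V}
    {z : V} {R : List V} (hpe : p = R ++ [z]) (hp : p.Nodup)
    (hch : p.IsChain (fun u v => c u v = k)) (hmax : ¬ Pth c k (p.length + 1)) {b : V}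
    (hb : b ∉ p) : c b z = !k := by
  subst hpe
  have hne : c b z ≠ k := by
    intro h
    apply hmax
    refine ⟨(R ++ [z]) ++ [b], ?_, by simp, ?_⟩
    · rw [List.nodup_append]
      refine ⟨hp, by simp, ?_⟩
      intro u hu v hv huv
      simp only [List.mem_singleton] at hv
      rw [huv, hv] at hu
      exact hb hu
    · rw [List.isChain_append]
      refine ⟨hch, List.IsChain.singleton _, ?_⟩
      intro u hu v hv
      simp only [List.head?_cons, Option.mem_def, Option.some.injEq] at hv
      simp only [List.getLast?_append, List.getLast?_singleton, Option.some_or,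
        Option.mem_def, Option.some.injEq] at hu
      subst hu hv
      rw [hsymm]
      exact h
  revert hne
  cases c b z <;> cases k <;> simp

theorem st_mid {c : V → V → Bool} (hsymm : ∀ u v, c u v = c v u) {k : Bool} {p : List V}
    {x y : V} {l1 l2 : List V} (hpe : p = l1 ++ x :: y :: l2) (hp : p.Nodup)
    (hch : p.IsChain (fun u v => c u v = k)) (hmax : ¬ Pth c k (p.length + 1)) {b : V}
    (hb : b ∉ p) : ¬ (c b x = k ∧ c b y = k) := by
  subst hpe
  intro hcon
  apply hmax
  refine ⟨l1 ++ x :: b :: y :: l2, ?_, by simp; omega, ?_⟩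
  · have h1 : (l1 ++ x :: b :: y :: l2).Perm (b :: (l1 ++ x :: y :: l2)) := by
      have h2 : l1 ++ x :: b :: y :: l2 = (l1 ++ [x]) ++ b :: (y :: l2) := by simp
      rw [h2]
      refine (List.perm_middle).trans ?_
      simp
    rw [h1.nodup_iff, List.nodup_cons]
    exact ⟨hb, hp⟩
  · rw [List.isChain_append] at hch ⊢
    refine ⟨hch.1, ?_, ?_⟩
    · have h3 := hch.2.1
      rw [List.isChain_cons_cons] at h3
      rw [List.isChain_cons_cons, List.isChain_cons_cons]
      refine ⟨?_, hcon.2, h3.2⟩
      rw [hsymm]
      exact hcon.1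
    · intro u hu v hv
      simp only [List.head?_cons, Option.mem_def, Option.some.injEq] at hv
      subst hv
      exact hch.2.2 u hu x (by simp)

/-- at most about half of the vertices of the path are joined to `b` in colour `k` -/
theorem st_few [DecidableEq V] {c : V → V → Bool} (hsymm : ∀ u v, c u v = c v u) {k : Bool}
    {p : List V} (hp : p.Nodup) (hch : p.IsChain (fun u v => c u v = k))
    (hmax : ¬ Pth c k (p.length + 1)) {b : V} (hb : b ∉ p) (D : Finset V)
    (hD : ∀ x ∈ D, x ∈ p ∧ c b x = k) : 2 * D.card ≤ p.length - 1 := by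
  have hk : ∀ x : Bool, x = k → x = (!k) → False := by
    intro x h1 h2
    exact st_aux1 x k h1 h2
  cases p with
  | nil =>
    have : D = ∅ := by
      rw [Finset.eq_empty_iff_forall_notMem]
      intro x hx
      have := (hD x hx).1
      simp at this
    rw [this]
    simp
  | cons a R0 =>
    have ha : a ∉ D := by
      intro h
      exact hk _ (hD a h).2 (st_first rfl hp hch hmax hb)
    rcases List.eq_nil_or_concat R0 with h0 | ⟨R, z, h0⟩
    · subst h0
      have : D = ∅ := by
        rw [Finset.eq_empty_iff_forall_notMem]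
        intro x hx
        have := (hD x hx).1
        rw [List.mem_singleton] at this
        rw [this] at hx
        exact ha hx
      rw [this]
      simp
    · rw [List.concat_eq_append] at h0
      subst h0
      have hz : z ∉ D := by
        intro h
        exact hk _ (hD z h).2 (st_last hsymm (R := a :: R) (by simp) hp hch hmax hb)
      have hcount := half_count (fun x => x ∈ D) R (by
        rw [List.isChain_iff_forall_rel_of_append_cons_cons]
        intro x y l1 l2 hR hxy
        apply st_mid hsymm (x := x) (y := y) (l1 := a :: l1) (l2 := l2 ++ [z]) (by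
          rw [hR]; simp) hp hch hmax hb
        exact ⟨(hD x hxy.1).2, (hD y hxy.2).2⟩)
      have hsub : D ⊆ (R.filter (fun v => decide (v ∈ D))).toFinset := by
        intro x hx
        rw [List.mem_toFinset, List.mem_filter]
        refine ⟨?_, by simpa using hx⟩
        have h1 := (hD x hx).1
        simp only [List.mem_cons, List.mem_append, List.not_mem_nil, or_false] at h1
        rcases h1 with h | h | h
        · rw [h] at hx; exact absurd hx ha
        · exact h
        · rw [h] at hx; exact absurd hx hz
      have h1 := Finset.card_le_card hsub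
      have h2 := List.toFinset_card_le (R.filter (fun v => decide (v ∈ D)))
      simp only [List.length_cons, List.length_append, List.length_nil]
      omega

/-- the alternating path through `bs` in the other colour -/
theorem st_alt {c : V → V → Bool} (hsymm : ∀ u v, c u v = c v u) {k : Bool} {a z : V}
    {R : List V} (hp : (a :: (R ++ [z])).Nodup)
    (hch : (a :: (R ++ [z])).IsChain (fun u v => c u v = k))
    (hmax : ¬ Pth c k ((a :: (R ++ [z])).length + 1)) (bs : List V) (hbs : bs.Nodup)
    (hout : ∀ b ∈ bs, b ∉ a :: (R ++ [z])) (hne : bs ≠ []) (hlen : 2 * (bs.length - 1) ≤ R.length) :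
    ∃ L : List (V × V), L ≠ [] ∧ (L.map Prod.fst).Perm bs ∧ (∀ q ∈ L, c q.1 q.2 = !k) ∧
      L.IsChain (fun q q' => c q.2 q'.1 = !k) ∧ (L.map Prod.snd).Nodup ∧
      ∀ x ∈ L.map Prod.snd, x = a ∨ x ∈ R := by
  set Bl : V → V → Prop := fun u v => c u v = !k with hBl
  have hsymm' : ∀ u v, Bl u v → Bl v u := by
    intro u v h
    simp only [hBl] at h ⊢
    rw [hsymm]
    exact h
  set R' := R.take (2 * (bs.length - 1)) with hR'
  have hR'len : R'.length = 2 * (bs.length - 1) := by
    rw [hR', List.length_take]
    omega
  obtain ⟨ps, hps, hpslen⟩ := exists_flat (bs.length - 1) R' hR'len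
  have hpos : 0 < bs.length := List.length_pos_of_ne_nil hne
  have hsplit : R = R' ++ R.drop (2 * (bs.length - 1)) := (List.take_append_drop _ _).symm
  obtain ⟨L, hL, hLne⟩ := alt_exists hsymm' a ps bs (by omega)
    (by
      intro b hb
      exact st_first rfl hp hch hmax (hout b hb))
    (by
      intro b hb q hq
      obtain ⟨l1, l2, h1⟩ := flat_mem_split ps q hq
      have h2 := st_mid hsymm (x := q.1) (y := q.2) (l1 := a :: l1)
        (l2 := l2 ++ (R.drop (2 * (bs.length - 1)) ++ [z])) (by
          conv_lhs => rw [hsplit, hps, h1]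
          simp) hp hch hmax (hout b hb)
      exact st_aux2 _ _ k h2)
    (by
      rw [← hps]
      rw [hsplit] at hp
      rw [show a :: ((R' ++ R.drop (2 * (bs.length - 1))) ++ [z]) =
        (a :: R') ++ (R.drop (2 * (bs.length - 1)) ++ [z]) by simp] at hp
      exact (List.nodup_append.mp hp).1)
  refine ⟨L, hLne, hL.fsts, hL.adj, hL.chain, hL.nodup, ?_⟩
  intro x hx
  rcases hL.mem x hx with h | h
  · exact Or.inl h
  · right
    rw [← hps] at h
    exact List.mem_of_mem_take h

end Pool.Agent.LibFT6
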